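import Pool.Agent.P.MP_ab3ecb_nt.Inv.J.Iface

/-! Step CL of the twist project. -/

namespace Pool.Agent.P.MP_ab3ecb_nt.Inv

open WithZero Polynomial Module TensorProduct
open Pool.Agent.P.MP_6f117a_ag (Place FF Model Reg)
open scoped IntermediateField Classical Cardinal

/-- A nontrivial valuation dominated by a place has the same maximal ideal. -/
theorem cl_dvr {K F : Type} [Field K] [Field F] [Algebra K F] (v : Valuation F ℤᵐ⁰)
    (P : Place K F) (h : ∀ x, v x < 1 → P.v x < 1) {w : F} (w0 : w ≠ 0) (hw : v w < 1) (x : F) :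
    v x < 1 ↔ P.v x < 1 := by
  refine ⟨h x, fun hx => ?_⟩
  have nz : ∀ y, y ≠ 0 → v y ≠ 0 := fun y hy => (map_ne_zero v).2 hy
  have unit : ∀ u, P.v u = 1 → v u = 1 := fun u hu => by
    rcases lt_trichotomy (v u) 1 with k | k | k
    · exact absurd (h u k) hu.not_lt
    · exact k
    · have := h u⁻¹ (by rw [map_inv₀]; exact inv_lt_one_of_one_lt₀ k)
      rw [map_inv₀, hu, inv_one] at this
      exact this.false.elim
  have key : ∀ y, y ≠ 0 → log (v y) = -log (P.v y) * log (v P.π) := fun y hy => by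
    have := congrArg log (unit _ (P.v_unit hy))
    rw [map_mul, map_zpow₀, log_mul (nz y hy) (zpow_ne_zero _ (nz _ P.π_ne)), log_zpow, log_one,
      smul_eq_mul] at this
    linear_combination this
  have lt : ∀ {a : ℤᵐ⁰}, a ≠ 0 → (a < 1 ↔ log a < 0) := fun ha => by
    rw [log_lt_iff_lt_exp ha, exp_zero]
  rcases eq_or_ne x 0 with rfl | x0
  · simp
  have h1 := (lt (nz w w0)).1 hw
  have h2 := (lt (v_ne P w0)).1 (h w hw)
  have h3 := (lt (v_ne P x0)).1 hx
  rw [lt (nz x x0), key x x0]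
  rw [key w w0] at h1
  have h4 : log (v P.π) < 0 := by
    by_contra k
    exact absurd h1 (not_lt.2 (mul_nonneg (by omega) (not_lt.1 k)))
  exact mul_neg_of_pos_of_neg (by omega) h4

theorem p_CL (hEXTA : S_EXTA) (hEXTB : S_EXTB) :
    S_CL := by
  intro K F k Fb _ _ _ _ _ _ _ _ _ _ _ _ j act h ht
  choose ext e1 e2 using hEXTA K F k Fb j act h
  choose pl p1 p2 p3 using hEXTB K F k Fb j act h ht
  refine ⟨ext, pl, e1, p1, p2, fun Q => ?_, fun τ P => e2 P _ fun w => ?_,
    fun τ φ => p3 _ _ fun w => ?_, fun P P' e => ?_, fun φ φ' e => AlgHom.ext fun w => ?_,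
    fun P φ e => ?_⟩
  · by_cases hQ : ∀ w, Q.v (j w) ≤ 1
    · exact .inr ⟨{ evHom Q j hQ with
        commutes' := fun c => by
          change ev Q (j (algebraMap K F c)) = _
          rw [h.comm, ev_const] }, p3 _ Q fun w => ev_spec (hQ w)⟩
    push Not at hQ
    obtain ⟨u, hu⟩ := hQ
    have u0 : u ≠ 0 := by
      rintro rfl
      simp at hu
    have tu : Transcendental K u := (MP_6f117a_ag.const_or_trans u).resolve_left fun ⟨c, hc⟩ => by
      rw [← hc, h.comm] at hu
      exact hu.not_ge (Q.triv _)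
    have tw := MP_6f117a_ag.trans_inv tu
    have := FF.fin _ tw
    let v : Valuation F ℤᵐ⁰ := Q.v.comap j
    have hw : v u⁻¹ < 1 := by
      rw [map_inv₀]
      exact inv_lt_one_of_one_lt₀ hu
    have eqv : ∀ x, v.valuationSubring.valuation x < 1 ↔ v x < 1 := fun x =>
      (Valuation.isEquiv_iff_val_lt_one.1 v.isEquiv_valuation_valuationSubring).symm
    obtain ⟨P, hP⟩ := (PL.setup tw).2.2 v.valuationSubring 0
      (fun a => by
        change Q.v (j (algebraMap K F a)) ≤ 1
        rw [h.comm]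
        exact Q.triv _) hw.le (by rw [map_zero, sub_zero, eqv]; exact hw)
    exact .inl ⟨P, e2 P Q (cl_dvr v P (fun x hx => hP x ((eqv x).2 hx)) (inv_ne_zero u0) hw)⟩
  · rw [h.v_pl, e1]
  · have := p1 φ w
    rwa [← (h.sa τ).pl_v, map_sub, h.sa_s, h.fixF, h.semi] at this
  · exact MP_6f117a_ag.Place.ext' (Valuation.ext fun w => by rw [← e1, ← e1, e])
  · rw [← ev_eq (p1 φ w), e, ev_eq (p1 φ' w)]
  · have h1 := le_one_of_sub (p1 φ P.π⁻¹)
    rw [← e, e1, map_inv₀, P.v_π, ← exp_neg, ← exp_zero, exp_le_exp] at h1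
    omega

end Pool.Agent.P.MP_ab3ecb_nt.Inv
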