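import Pool.Agent.P.MP_ab3ecb_nt.Inv.J.Exta

/-! Step EXTB of the twist project. -/

namespace Pool.Agent.P.MP_ab3ecb_nt.Inv

open WithZero Polynomial Module TensorProduct
open Pool.Agent.P.MP_6f117a_ag (Place FF Model Reg)
open scoped IntermediateField Classical Cardinal

theorem extb_count {α β : Type} [Fintype α] {g : α → β} (hg : Function.Injective g)
    {Y : Finset β} {m : β → ℤ} (h1 : ∀ a, g a ∈ Y) (h2 : ∀ Q ∈ Y, 0 < m Q)
    (h3 : ∑ Q ∈ Y, m Q = Fintype.card α) : ∀ Q ∈ Y, m Q = 1 ∧ ∃ a, g a = Q := by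
  have hsub : Finset.univ.map ⟨g, hg⟩ ⊆ Y := fun Q hQ => by
    obtain ⟨a, -, rfl⟩ := Finset.mem_map.1 hQ
    exact h1 a
  have c1 := Finset.card_le_card hsub
  have s2 : ∀ Q ∈ Y, 0 ≤ m Q - 1 := fun Q hQ => by have := h2 Q hQ; omega
  have s3 := Finset.sum_nonneg s2
  have s4 : ∑ Q ∈ Y, (m Q - 1) = Fintype.card α - Y.card := by
    rw [Finset.sum_sub_distrib, h3]
    simp
  have c2 : (Finset.univ.map ⟨g, hg⟩ : Finset β).card = Fintype.card α := by simp
  have e := Finset.eq_of_subset_of_card_le hsub (by omega)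
  refine fun Q hQ => ⟨?_, ?_⟩
  · have := (Finset.sum_eq_zero_iff_of_nonneg s2).1 (by omega) Q hQ
    omega
  · obtain ⟨a, -, rfl⟩ := Finset.mem_map.1 (e ▸ hQ)
    exact ⟨a, rfl⟩

theorem p_EXTB (hCEDEG : S_CEDEG) :
    S_EXTB := by
  intro K F k Fb _ _ _ _ _ _ _ _ _ _ _ _ j act h ⟨t0, ht0⟩ φ
  have ex : ∀ ψ : F →ₐ[K] k, ∃ Q : Place k Fb, ∀ w, Q.v (j w - algebraMap k Fb (ψ w)) < 1 :=
    fun ψ => (exta_center h ⊤ (ψ.comp (Subalgebra.val ⊤)) (Algebra.mem_top (x := t0))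
      (hCEDEG K F k Fb j act h _ ht0).1).imp fun Q hQ w => hQ ⟨w, Algebra.mem_top⟩
  choose f hf using ex
  have key : ∀ t, Transcendental K t → ∀ Q : Place k Fb,
      (∀ w, Q.v (j w - algebraMap k Fb (φ w)) < 1) →
      ord Q (j t - algebraMap k Fb (φ t)) = 1 ∧ Q = f φ := fun t ht Q hQ => by
    obtain ⟨ht', h2⟩ := hCEDEG K F k Fb j act h _ ht
    have := FF.fin t ht
    have hn := (h2 this).2
    have hu := MP_6f117a_ag.trans_sub ht' (φ t)
    obtain ⟨Y, y1, y2⟩ := (PL.model hu).fund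
    rw [MP_6f117a_ag.adjoin_sub, hn] at y2
    let _ : Algebra K⟮t⟯ k := (φ.comp K⟮t⟯.val).toRingHom.toAlgebra
    have : IsScalarTower K K⟮t⟯ k := .of_algebraMap_eq fun c =>
      ((φ.comp K⟮t⟯.val).commutes c).symm
    have : CharZero K⟮t⟯ := charZero_of_injective_algebraMap (algebraMap K K⟮t⟯).injective
    have inj : Function.Injective fun ψ : F →ₐ[K⟮t⟯] k => f (ψ.restrictScalars K) :=
      fun a b e => AlgHom.ext fun w => PL.const_eq _ (f (a.restrictScalars K)).triv (hf _ w)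
        (by rw [show f (a.restrictScalars K) = f (b.restrictScalars K) from e]; exact hf _ w)
    obtain ⟨a1, ψ, rfl⟩ := extb_count inj (Y := Y)
      (m := fun Q => ord Q (j t - algebraMap k Fb (φ t)))
      (fun ψ => (y1 _).2 (by
        have e : ψ t = φ t := ψ.commutes (IntermediateField.AdjoinSimple.gen K t)
        rw [← e]
        exact hf (ψ.restrictScalars K) t))
      (fun Q hQ => (lt_one_iff (MP_6f117a_ag.trans_ne hu)).1 ((y1 Q).1 hQ))
      (by rw [AlgHom.card]; exact y2) Q ((y1 Q).2 (hQ t))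
    exact ⟨a1, congrArg f (AlgHom.ext fun w =>
      PL.const_eq _ (f (ψ.restrictScalars K)).triv (hf _ w) (hQ w))⟩
  exact ⟨f φ, hf φ, fun t ht => (key t ht _ (hf φ)).1, fun Q hQ => (key t0 ht0 Q hQ).2⟩

end Pool.Agent.P.MP_ab3ecb_nt.Inv
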