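import Pool.Agent.P.MP_ab3ecb_nt.Inv.BaseJ

/-!
Statements: divisor classes of a function field in one variable.
-/

namespace Pool.Agent.P.MP_ab3ecb_nt.Inv

open WithZero Polynomial Module TensorProduct
open Pool.Agent.P.MP_6f117a_ag (Place FF Model Reg)
open scoped IntermediateField Classical Cardinal

-- deps:
def S_RR : Prop := ∀ (k E : Type) [Field k] [IsAlgClosed k] [Field E] [Algebra k E] [FF k E],
  (∃ t : E, Transcendental k t) → ∃ g, RR k E g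

-- deps: RR
def S_WA : Prop := ∀ (k E : Type) [Field k] [IsAlgClosed k] [Field E] [Algebra k E] [FF k E],
  (∃ t : E, Transcendental k t) → Infinite (Place k E) ∧
    ∀ (S : Finset (Place k E)) (n : Place k E → ℤ), ∃ z : E, z ≠ 0 ∧ ∀ P ∈ S, ord P z = n P

-- deps:
def S_DOMA : Prop := ∀ (K F k : Type) [Field K] [CharZero K] [Field F] [Algebra K F] [Field k]
  [Algebra K k] [Algebra.IsAlgebraic K k],
  (∀ z : F, IsAlgebraic K z → z ∈ (algebraMap K F).range) → IsDomain (k ⊗[K] F)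

-- deps:
def S_DOMC : Prop := ∀ (K F k : Type) [Field K] [IsAlgClosed K] [Field F] [Algebra K F] [Field k]
  [Algebra K k], IsDomain (k ⊗[K] F)

-- deps:
def S_BASE : Prop := ∀ (K F k : Type) [Field K] [Field F] [Algebra K F] [Field k] [Algebra K k],
  IsDomain (k ⊗[K] F) → ∃ (Fb : Type) (_ : Field Fb) (_ : Algebra k Fb) (j : F →+* Fb)
    (act : (k ≃ₐ[K] k) →* RingAut Fb), CE j act ∧
      (Algebra.IsAlgebraic K k → Submodule.span k (Set.range j) = ⊤)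

-- deps:
def S_CEDEG : Prop := ∀ (K F k Fb : Type) [Field K] [Field F] [Algebra K F] [Field k]
  [Algebra K k] [Field Fb] [Algebra k Fb] (j : F →+* Fb) (act : (k ≃ₐ[K] k) →* RingAut Fb),
  CE j act → ∀ t : F, Transcendental K t → Transcendental k (j t) ∧
    (FiniteDimensional K⟮t⟯ F → FF k Fb ∧ finrank k⟮j t⟯ Fb = finrank K⟮t⟯ F)

-- deps:
def S_DESC : Prop := ∀ (K F k Fb : Type) [Field K] [Field F] [Algebra K F] [Field k]
  [Algebra K k] [Field Fb] [Algebra k Fb] (j : F →+* Fb) (act : (k ≃ₐ[K] k) →* RingAut Fb),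
  CE j act → ∀ (H : Subgroup (k ≃ₐ[K] k)) (V : Submodule k Fb),
    V ≤ Submodule.span k (Set.range j) → (∀ τ ∈ H, ∀ z ∈ V, act τ z ∈ V) →
    V ≤ Submodule.span k {z | z ∈ V ∧ z ∈ Sp j (IntermediateField.fixedField H)} ∧
    ∀ z ∈ Submodule.span k (Set.range j), (∀ τ ∈ H, act τ z = z) →
      z ∈ Sp j (IntermediateField.fixedField H)

-- deps: DESC
def S_FIXE : Prop := ∀ (K F k Fb : Type) [Field K] [Field F] [Algebra K F] [Field k]
  [Algebra K k] [Field Fb] [Algebra k Fb] (j : F →+* Fb) (act : (k ≃ₐ[K] k) →* RingAut Fb),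
  CE j act → (∀ c : k, (∀ τ : k ≃ₐ[K] k, τ c = c) → c ∈ (algebraMap K k).range) →
    ∀ z : Fb, (∀ τ, act τ z = z) → ∃ w, j w = z

-- deps:
def S_DER : Prop := ∀ (K F k Fb : Type) [Field K] [Field F] [Algebra K F] [Field k]
  [Algebra K k] [Field Fb] [Algebra k Fb] (j : F →+* Fb) (act : (k ≃ₐ[K] k) →* RingAut Fb),
  CE j act → ∀ δ : Derivation K k k, ∃ δ' : Derivation ℤ Fb Fb,
    (∀ c, δ' (algebraMap k Fb c) = algebraMap k Fb (δ c)) ∧ ∀ w, δ' (j w) = 0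

-- deps: CEDEG
def S_EXTA : Prop := ∀ (K F k Fb : Type) [Field K] [IsAlgClosed K] [Field F] [Algebra K F]
  [FF K F] [Field k] [IsAlgClosed k] [Algebra K k] [Field Fb] [Algebra k Fb] [FF k Fb]
  (j : F →+* Fb) (act : (k ≃ₐ[K] k) →* RingAut Fb), CE j act → ∀ P : Place K F,
    ∃ Q : Place k Fb, (∀ w, Q.v (j w) = P.v w) ∧
      ∀ Q' : Place k Fb, (∀ w, Q'.v (j w) < 1 ↔ P.v w < 1) → Q' = Q

-- deps: CEDEG
def S_EXTB : Prop := ∀ (K F k Fb : Type) [Field K] [IsAlgClosed K] [CharZero K] [Field F]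
  [Algebra K F] [FF K F] [Field k] [IsAlgClosed k] [Algebra K k] [Field Fb] [Algebra k Fb]
  [FF k Fb] (j : F →+* Fb) (act : (k ≃ₐ[K] k) →* RingAut Fb), CE j act →
  (∃ t : F, Transcendental K t) → ∀ φ : F →ₐ[K] k,
    ∃ Q : Place k Fb, (∀ w, Q.v (j w - algebraMap k Fb (φ w)) < 1) ∧
      (∀ t, Transcendental K t → ord Q (j t - algebraMap k Fb (φ t)) = 1) ∧
      ∀ Q' : Place k Fb, (∀ w, Q'.v (j w - algebraMap k Fb (φ w)) < 1) → Q' = Q

-- deps: EXTA EXTB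
def S_CL : Prop := ∀ (K F k Fb : Type) [Field K] [IsAlgClosed K] [CharZero K] [Field F]
  [Algebra K F] [FF K F] [Field k] [IsAlgClosed k] [Algebra K k] [Field Fb] [Algebra k Fb]
  [FF k Fb] (j : F →+* Fb) (act : (k ≃ₐ[K] k) →* RingAut Fb) (h : CE j act),
  (∃ t : F, Transcendental K t) → ∃ ext pl, Cl h ext pl

-- deps:
def S_DALG : Prop := ∀ (K k : Type) [Field K] [CharZero K] [Field k] [Algebra K k] (Y : Set k)
  (c : k), (∀ δ : Derivation K k k, (∀ y ∈ Y, δ y = 0) → δ c = 0) ↔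
    IsAlgebraic (IntermediateField.adjoin K Y) c

-- deps: DALG
def S_LOCD : Prop := ∀ (K F k Fb : Type) [Field K] [IsAlgClosed K] [CharZero K] [Field F]
  [Algebra K F] [FF K F] [Field k] [IsAlgClosed k] [Algebra K k] [Field Fb] [Algebra k Fb]
  [FF k Fb] (j : F →+* Fb) (act : (k ≃ₐ[K] k) →* RingAut Fb) (h : CE j act) ext pl,
  Cl h ext pl → (∃ t : F, Transcendental K t) → ∀ (δ : Derivation K k k)
    (δ' : Derivation ℤ Fb Fb), (∀ c, δ' (algebraMap k Fb c) = algebraMap k Fb (δ c)) →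
    (∀ w, δ' (j w) = 0) → ∀ (Q : Place k Fb) (z : Fb), z ≠ 0 →
      Q.v (δ' z / z) ≤ exp 1 ∧ (Kil j δ Q ∨ ord Q z = 0 → Q.v (δ' z / z) ≤ 1) ∧
      (¬ Kil j δ Q → ord Q z ≠ 0 → 1 < Q.v (δ' z / z))

-- deps: DER LOCD
def S_RIG : Prop := ∀ (K F k Fb : Type) [Field K] [IsAlgClosed K] [CharZero K] [Field F]
  [Algebra K F] [FF K F] [Field k] [IsAlgClosed k] [Algebra K k] [Field Fb] [Algebra k Fb]
  [FF k Fb] (j : F →+* Fb) (act : (k ≃ₐ[K] k) →* RingAut Fb) (h : CE j act) ext pl,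
  Cl h ext pl → (∃ t : F, Transcendental K t) → ∀ (δ : Derivation K k k) (z : Fb) (A : Dv k Fb),
    z ≠ 0 → 0 ≤ A → finrank k (LS A) = 1 → (∀ Q, ord Q z ≠ 0 → Q ∈ A.support ∨ Kil j δ Q) →
    ∀ Q, ord Q z ≠ 0 → Kil j δ Q

-- deps:
def S_ORB : Prop := ∀ (L k : Type) [Field L] [Field k] [IsAlgClosed k] [Algebra L k] (c : k),
  Transcendental L c → (Set.range fun τ : k ≃ₐ[L] k => τ c).Infinite

-- deps:
def S_AUT : Prop := ∀ (K L k : Type) [Field K] [Field L] [Field k] [IsAlgClosed k] [Algebra K L]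
  [Algebra K k], Algebra.trdeg K L < ℵ₀ → ℵ₀ ≤ Algebra.trdeg K k → ∀ α β : L →ₐ[K] k,
    ∃ τ : k ≃ₐ[K] k, ∀ z, τ (α z) = β z

-- deps: AUT DOMC
def S_CONJ : Prop := ∀ (K F k : Type) [Field K] [IsAlgClosed K] [Field F] [Algebra K F] [FF K F]
  [Field k] [IsAlgClosed k] [Algebra K k] (t : F), Transcendental K t → ℵ₀ ≤ Algebra.trdeg K k →
  ∀ (r : ℕ) (φ ψ : Fin r → F →ₐ[K] k), Gen t φ → Gen t ψ →
    ∃ τ : k ≃ₐ[K] k, ∀ i, (τ : k →ₐ[K] k).comp (φ i) = ψ i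

-- deps: ORB
def S_NS : Prop := ∀ (K F k Fb : Type) [Field K] [IsAlgClosed K] [CharZero K] [Field F]
  [Algebra K F] [FF K F] [Field k] [IsAlgClosed k] [Algebra K k] [Field Fb] [Algebra k Fb]
  [FF k Fb] (j : F →+* Fb) (act : (k ≃ₐ[K] k) →* RingAut Fb) (h : CE j act) ext pl,
  Cl h ext pl → ∀ t : F, Transcendental K t → ∀ g, RR k Fb g → ∀ r, r ≤ g →
    ∀ φ : Fin r → F →ₐ[K] k, Gen t φ → finrank k (LS (gD pl φ)) = 1

-- deps:
def S_TRD : Prop := ∀ (K k : Type) [Field K] [Field k] [Algebra K k] (g : ℕ) (x : Fin g → k)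
  (Y : Finset k), AlgebraicIndependent K x → Y.card ≤ g →
  (∀ i, IsAlgebraic (IntermediateField.adjoin K (Y : Set k)) (x i)) →
    Y.card = g ∧ AlgebraicIndependent K ((↑) : Y → k)

-- deps: RIG DALG TRD
def S_GEN : Prop := ∀ (K F k Fb : Type) [Field K] [IsAlgClosed K] [CharZero K] [Field F]
  [Algebra K F] [FF K F] [Field k] [IsAlgClosed k] [Algebra K k] [Field Fb] [Algebra k Fb]
  [FF k Fb] (j : F →+* Fb) (act : (k ≃ₐ[K] k) →* RingAut Fb) (h : CE j act) ext pl,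
  Cl h ext pl → ∀ t : F, Transcendental K t → ∀ (g : ℕ) (φ : Fin g → F →ₐ[K] k), Gen t φ →
    finrank k (LS (gD pl φ)) = 1 → ∀ (A : Dv k Fb) (m : ℕ) (C : Dv K F), 0 ≤ A → deg A = g →
    m ≠ 0 → Prin (m • gD pl φ - A - C.mapDomain ext) →
    ∃ ψ : Fin g → F →ₐ[K] k, Gen t ψ ∧ A = gD pl ψ ∧
      ∀ i, IsAlgebraic (IntermediateField.adjoin K (Set.range fun i => ψ i t)) (φ i t)

-- deps: RIG DALG
def S_HALF : Prop := ∀ (K F k Fb : Type) [Field K] [IsAlgClosed K] [CharZero K] [Field F]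
  [Algebra K F] [FF K F] [Field k] [IsAlgClosed k] [Algebra K k] [Field Fb] [Algebra k Fb]
  [FF k Fb] (j : F →+* Fb) (act : (k ≃ₐ[K] k) →* RingAut Fb) (h : CE j act) ext pl,
  Cl h ext pl → (∃ t : F, Transcendental K t) → ∀ g, RR k Fb g → ∀ (D : Dv k Fb) (C : Dv K F),
    Prin (2 • D - C.mapDomain ext) → ∃ C' : Dv K F, Prin (D - C'.mapDomain ext)

-- deps: FIXE ORB
def S_PRIN : Prop := ∀ (K F k Fb : Type) [Field K] [IsAlgClosed K] [CharZero K] [Field F]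
  [Algebra K F] [FF K F] [Field k] [IsAlgClosed k] [Algebra K k] [Field Fb] [Algebra k Fb]
  [FF k Fb] (j : F →+* Fb) (act : (k ≃ₐ[K] k) →* RingAut Fb) (h : CE j act) ext pl,
  Cl h ext pl → (∃ t : F, Transcendental K t) → ∀ C : Dv K F, Prin (C.mapDomain ext) → Prin C

-- deps: DOMC BASE CEDEG CL RR
def S_UNIV : Prop := ∀ (K F : Type) [Field K] [IsAlgClosed K] [CharZero K] [Field F]
  [Algebra K F] [FF K F] (t : F), Transcendental K t →
  ∃ (k Fb : Type) (_ : Field k) (_ : IsAlgClosed k) (_ : Algebra K k) (_ : Field Fb)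
    (_ : Algebra k Fb) (_ : FF k Fb) (j : F →+* Fb) (act : (k ≃ₐ[K] k) →* RingAut Fb)
    (h : CE j act) (ext : Place K F → Place k Fb) (pl : (F →ₐ[K] k) → Place k Fb) (g : ℕ),
    Cl h ext pl ∧ RR k Fb g ∧ ℵ₀ ≤ Algebra.trdeg K k ∧ ∃ φ : Fin g → F →ₐ[K] k, Gen t φ

-- deps: UNIV NS GEN CONJ HALF PRIN
def S_JDIV : Prop := ∀ (k E : Type) [Field k] [IsAlgClosed k] [CharZero k] [Field E] [Algebra k E]
  [FF k E], (∃ t : E, Transcendental k t) → ∀ S : Finset (Place k E), Even S.card →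
    ∃ z : E, OddAt k z S

-- deps: UNIV NS GEN CONJ PRIN
def S_JFIN : Prop := ∀ (k E : Type) [Field k] [IsAlgClosed k] [CharZero k] [Field E] [Algebra k E]
  [FF k E], (∃ t : E, Transcendental k t) → ∃ R : Finset E, (∀ r ∈ R, Ev2 k r) ∧
    ∀ z : E, Ev2 k z → ∃ r ∈ R, IsSquare (z * r)

end Pool.Agent.P.MP_ab3ecb_nt.Inv
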