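import Pool.Agent.P.MP_ab3ecb_nt.Inv.J.Iface

/-! Step BASE of the twist project. -/

namespace Pool.Agent.P.MP_ab3ecb_nt.Inv

open WithZero Polynomial Module TensorProduct
open Pool.Agent.P.MP_6f117a_ag (Place FF Model Reg)
open scoped IntermediateField Classical Cardinal

/-- The action on the tensor product. -/
noncomputable def base_act (K F k : Type) [Field K] [Field F] [Algebra K F] [Field k]
    [Algebra K k] : (k ≃ₐ[K] k) →* (k ⊗[K] F ≃+* k ⊗[K] F) :=
  MonoidHom.mk' (fun τ => (Algebra.TensorProduct.congr τ AlgEquiv.refl).toRingEquiv) fun σ τ =>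
    RingEquiv.ext fun z => by
      induction z using TensorProduct.induction_on with
      | zero => simp
      | tmul a b => simp
      | add a b ha hb => rw [map_add, map_add, ha, hb]

theorem p_BASE :
    S_BASE := by
  intro K F k _ _ _ _ _ hd
  let R := k ⊗[K] F
  let ι := IsScalarTower.toAlgHom k R (FractionRing R)
  have inj : Function.Injective ι := IsFractionRing.injective R (FractionRing R)
  let j : F →+* FractionRing R := (algebraMap R (FractionRing R)).comp
    (Algebra.TensorProduct.includeRight : F →ₐ[K] R)
  have mem : ∀ z : R, ι z ∈ Submodule.span k (Set.range j) := fun z => by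
    induction z using TensorProduct.induction_on with
    | zero => simp
    | tmul a b =>
      rw [show a ⊗ₜ[K] b = a • ((1 : k) ⊗ₜ[K] b) by simp [smul_tmul'], map_smul]
      exact Submodule.smul_mem _ _ (Submodule.subset_span ⟨b, rfl⟩)
    | add a b ha hb => rw [map_add]; exact add_mem ha hb
  have hact : ∀ τ (z : R), IsFractionRing.ringEquivOfRingEquivHom R (FractionRing R)
      (base_act K F k τ) (ι z) = ι (base_act K F k τ z) := fun τ z =>
    IsFractionRing.ringEquivOfRingEquiv_algebraMap _ z
  refine ⟨FractionRing R, inferInstance, inferInstance, j,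
    (IsFractionRing.ringEquivOfRingEquivHom R (FractionRing R)).comp (base_act K F k),
    ⟨fun c => ?_, fun τ c => ?_, fun τ z => hact τ (1 ⊗ₜ z) |>.trans ?_, fun I b hb => ?_,
      fun z => ?_⟩, fun _ => ?_⟩
  · exact congrArg ι ((Algebra.TensorProduct.includeRight : F →ₐ[K] R).commutes c)
  · exact hact τ (c ⊗ₜ 1)
  · exact congrArg (fun x : k => ι (x ⊗ₜ z)) (map_one τ)
  · exact (Module.Flat.linearIndependent_one_tmul (S := k) hb).map' ι.toLinearMap
      (LinearMap.ker_eq_bot.2 inj)
  · obtain ⟨x, y, hy, rfl⟩ := IsFractionRing.div_surjective (A := R) z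
    have h0 : ι y ≠ 0 := (map_ne_zero_iff _ inj).2 (nonZeroDivisors.ne_zero hy)
    exact ⟨ι y, mem y, h0, (mul_div_cancel₀ (ι x) h0).symm ▸ mem x⟩
  · let := Algebra.TensorProduct.rightAlgebra (R := K) (A := k) (B := F)
    have : Algebra.IsIntegral F R := ⟨fun z => by
      induction z using TensorProduct.induction_on with
      | zero => exact isIntegral_zero
      | tmul a b =>
        have h1 : IsIntegral K (a ⊗ₜ[K] (1 : F)) :=
          (Algebra.IsIntegral.isIntegral (R := K) a).map
            (Algebra.TensorProduct.includeLeft : k →ₐ[K] R)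
        simpa [Algebra.TensorProduct.right_algebraMap_apply] using
          (h1.tower_top (A := F)).mul (isIntegral_algebraMap (x := b))
      | add a b ha hb => exact ha.add hb⟩
    have hf := isField_of_isIntegral_of_isField' (S := R) (Field.toIsField F)
    refine eq_top_iff.2 fun z _ => ?_
    obtain ⟨x, y, hy, rfl⟩ := IsFractionRing.div_surjective (A := R) z
    obtain ⟨u, hu⟩ := hf.mul_inv_cancel (nonZeroDivisors.ne_zero hy)
    have h1 : ι y * ι u = 1 := by rw [← map_mul, hu, map_one]
    have h2 := mem (x * u)
    rwa [map_mul, eq_inv_of_mul_eq_one_right h1, ← div_eq_mul_inv] at h2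

end Pool.Agent.P.MP_ab3ecb_nt.Inv
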