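import Pool.Agent.P.MP_ab3ecb_nt.Inv.J.Iface

/-! Step CEDEG of the twist project. -/

namespace Pool.Agent.P.MP_ab3ecb_nt.Inv

open WithZero Polynomial Module TensorProduct
open Pool.Agent.P.MP_6f117a_ag (Place FF Model Reg)
open scoped IntermediateField Classical Cardinal

theorem cedeg_pow {K F : Type} [Field K] [Field F] [Algebra K F] (t : F) :
    Transcendental K t ↔ LinearIndependent K fun n : ℕ => t ^ n := by
  constructor
  · intro h
    have := (Polynomial.basisMonomials K).linearIndependent.map' (aeval t).toLinearMap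
      (LinearMap.ker_eq_bot.2 (transcendental_iff_injective.1 h))
    have e : (fun n : ℕ => t ^ n) = (aeval t).toLinearMap ∘ Polynomial.basisMonomials K := by
      funext n
      simp
    rw [e]
    exact this
  · intro h
    rw [transcendental_iff]
    intro p hp
    rw [aeval_eq_sum_range] at hp
    ext n
    by_cases hn : n < p.natDegree + 1
    · exact linearIndependent_iff'.1 h _ _ hp n (Finset.mem_range.2 hn)
    · exact coeff_eq_zero_of_natDegree_lt (by omega)

open IntermediateField.algebraAdjoinAdjoin in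
theorem cedeg_ind {k Fb ι : Type} [Field k] [Field Fb] [Algebra k Fb] [Fintype ι] (s : Fb)
    (c : ι → Fb) (h : LinearIndependent k fun p : ℕ × ι => s ^ p.1 * c p.2) :
    LinearIndependent k⟮s⟯ c := by
  rw [← LinearIndependent.iff_fractionRing (Algebra.adjoin k {s}) k⟮s⟯,
    Fintype.linearIndependent_iff]
  intro g hg
  have e : ∀ i, ∃ p : k[X], aeval s p = g i := fun i => by
    exact (Algebra.adjoin_singleton_eq_range_aeval k s).le (g i).2
  choose p hp using e
  obtain ⟨N, hN⟩ : ∃ N, ∀ i, (p i).natDegree < N :=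
    ⟨Finset.univ.sup (fun i => (p i).natDegree) + 1, fun i =>
      Nat.lt_succ_of_le (Finset.le_sup (f := fun i => (p i).natDegree) (Finset.mem_univ i))⟩
  have h0 := linearIndependent_iff'.1 h (Finset.range N ×ˢ Finset.univ)
    (fun q => (p q.2).coeff q.1) (by
      rw [Finset.sum_product_right, ← hg]
      refine Finset.sum_congr rfl fun i _ => ?_
      rw [Subalgebra.smul_def, ← hp i, aeval_eq_sum_range' (hN i), smul_eq_mul, Finset.sum_mul]
      simp)
  intro i
  have : p i = 0 := by
    ext n
    by_cases hn : n < N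
    · exact h0 (n, i) (by simp [hn])
    · exact coeff_eq_zero_of_natDegree_lt (by have := hN i; omega)
  ext
  rw [← hp i, this]
  simp

theorem p_CEDEG :
    S_CEDEG := by
  intro K F k Fb _ _ _ _ _ _ _ j act h t ht
  refine ⟨(cedeg_pow _).2 ?_, fun hf => ?_⟩
  · convert h.lin _ _ ((cedeg_pow _).1 ht) using 1
    funext n
    simp
  let b := Module.finBasis K⟮t⟯ F
  have h1 : LinearIndependent K fun n : ℕ => IntermediateField.AdjoinSimple.gen K t ^ n :=
    LinearIndependent.of_comp (K⟮t⟯.val.toLinearMap) (by
      convert (cedeg_pow _).1 ht using 1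
      funext n
      simp)
  have h2 : LinearIndependent k⟮j t⟯ (j ∘ b) := cedeg_ind _ _ (by
    convert h.lin _ _ (linearIndependent_smul h1 b.linearIndependent) using 1
    funext p
    simp [IntermediateField.smul_def])
  have h3 : ∀ x ∈ K⟮t⟯, j x ∈ k⟮j t⟯ := fun x hx => by
    induction hx using IntermediateField.adjoin_induction with
    | mem x hx =>
      rw [Set.mem_singleton_iff.1 hx]
      exact IntermediateField.mem_adjoin_simple_self k _
    | algebraMap x =>
      rw [h.comm]
      exact IntermediateField.algebraMap_mem _ _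
    | add x y _ _ hx hy =>
      rw [map_add]
      exact add_mem hx hy
    | inv x _ hx =>
      rw [map_inv₀]
      exact inv_mem hx
    | mul x y _ _ hx hy =>
      rw [map_mul]
      exact mul_mem hx hy
  set V := Submodule.span k⟮j t⟯ (Set.range (j ∘ b)) with hV
  have h4 : ∀ x, j x ∈ V := fun x => by
    rw [← b.sum_repr x, map_sum]
    refine Submodule.sum_mem _ fun i _ => ?_
    have := V.smul_mem ⟨_, h3 _ (b.repr x i).2⟩ (Submodule.subset_span ⟨i, rfl⟩)
    simpa [IntermediateField.smul_def] using this
  let B := Algebra.adjoin k⟮j t⟯ (Set.range j)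
  have h5 : B.toSubmodule ≤ V := by
    rw [Algebra.adjoin_eq_span, Submodule.span_le]
    intro x hx
    obtain ⟨y, rfl⟩ : x ∈ MonoidHom.mrange j :=
      (Submonoid.closure_le (S := MonoidHom.mrange j)).2 (fun z hz => hz) hx
    exact h4 y
  have : FiniteDimensional k⟮j t⟯ V := FiniteDimensional.span_of_finite _ (Set.finite_range _)
  have : FiniteDimensional k⟮j t⟯ B := Submodule.finiteDimensional_of_le h5
  have h6 : ∀ z ∈ Submodule.span k (Set.range j), z ∈ B := fun z hz =>
    (Submodule.span_le (p := B.toSubmodule.restrictScalars k)).2 Algebra.subset_adjoin hz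
  have h7 : ⊤ ≤ V := fun z _ => by
    obtain ⟨a, ha, a0, hz⟩ := h.frac z
    have h8 : a⁻¹ ∈ B := B.inv_mem_of_algebraic (x := ⟨a, h6 a ha⟩)
      ((Algebra.IsAlgebraic.isAlgebraic (R := k⟮j t⟯) (⟨a, h6 a ha⟩ : B)).algHom B.val)
    have := B.mul_mem h8 (h6 _ hz)
    rw [inv_mul_cancel_left₀ a0] at this
    exact h5 this
  let c := Basis.mk h2 h7
  have : FiniteDimensional k⟮j t⟯ Fb := Module.Finite.of_basis c
  exact ⟨(PL.ff_of_finite k Fb Fb (j t)).1, by rw [finrank_eq_card_basis c, Fintype.card_fin]⟩

end Pool.Agent.P.MP_ab3ecb_nt.Inv
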