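import Pool.Agent.P.MP_ab3ecb_nt.Inv.J.Iface

/-! Step EXTA of the twist project. -/

namespace Pool.Agent.P.MP_ab3ecb_nt.Inv

open WithZero Polynomial Module TensorProduct
open Pool.Agent.P.MP_6f117a_ag (Place FF Model Reg)
open scoped IntermediateField Classical Cardinal

section

variable {K F k Fb : Type} [Field K] [Field F] [Algebra K F] [Field k] [Algebra K k] [Field Fb]
  [Algebra k Fb] {j : F →+* Fb} {act : (k ≃ₐ[K] k) →* RingAut Fb}

/-- A point of a subalgebra of `F` with values in `k` is the centre of a place of `Fb`. -/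
theorem exta_center [IsAlgClosed k] [FF k Fb] (h : CE j act) (R : Subalgebra K F)
    (ψ : R →ₐ[K] k) {t : F} (hR : t ∈ R) (ht : Transcendental k (j t)) :
    ∃ Q : Place k Fb, ∀ r : R, Q.v (j r - algebraMap k Fb (ψ r)) < 1 := by
  let _ : Algebra K Fb := ((algebraMap k Fb).comp (algebraMap K k)).toAlgebra
  have : IsScalarTower K k Fb := .of_algebraMap_eq fun _ => rfl
  let j' : R →ₐ[K] Fb := ⟨j.comp R.val.toRingHom, fun c => h.comm c⟩
  let μ : k ⊗[K] R →ₐ[k] Fb :=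
    Algebra.TensorProduct.lift (Algebra.ofId k Fb) j' fun _ _ => Commute.all _ _
  have hμ1 : ∀ r : R, μ (1 ⊗ₜ r) = j r := fun r => by simp [μ, j']
  have hμ : Function.Injective μ := by
    let b := Basis.ofVectorSpace K R
    have h1 := h.lin _ (fun i => (b i : F))
      (b.linearIndependent.map' R.val.toLinearMap (LinearMap.ker_eq_bot.2 Subtype.val_injective))
    have h2 := (Algebra.TensorProduct.basis k b).injective_constr_of_linearIndependent (R₂ := k) h1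
    have e : (Algebra.TensorProduct.basis k b).constr k (j ∘ fun i => (b i : F)) = μ.toLinearMap :=
      (Algebra.TensorProduct.basis k b).ext fun i => by
        rw [Basis.constr_basis, Algebra.TensorProduct.basis_apply]
        exact (hμ1 _).symm
    rwa [e] at h2
  let ν : k ⊗[K] R →ₐ[k] k :=
    Algebra.TensorProduct.lift (AlgHom.id k k) ψ fun _ _ => Commute.all _ _
  let e := AlgEquiv.ofInjective μ hμ
  obtain ⟨Q, hQ⟩ := PL.exists_center μ.range (ν.comp e.symm.toAlgHom)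
    (t := j t) ⟨1 ⊗ₜ ⟨t, hR⟩, hμ1 _⟩ ht
  refine ⟨Q, fun r => ?_⟩
  have := hQ (e (1 ⊗ₜ r))
  rw [show ((e (1 ⊗ₜ r) : μ.range) : Fb) = j r from hμ1 r] at this
  simpa [ν] using this

theorem exta_over [IsAlgClosed K] [FF K F] [IsAlgClosed k] [FF k Fb] (h : CE j act)
    (P : Place K F) (ht : Transcendental k (j P.π)) :
    ∃ Q : Place k Fb, ∀ w, Q.v (j w) < 1 ↔ P.v w < 1 := by
  obtain ⟨R, φ, hR, hφ⟩ := PL.exists_res P.v P.triv fun _ hx => PL.res P hx
  obtain ⟨Q, hQ⟩ := exta_center h R ((Algebra.ofId K k).comp φ) ((hR _).2 P.v_π_le) ht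
  refine ⟨Q, fun u => ⟨fun hu => ?_, fun hu => ?_⟩⟩
  · by_contra hc
    have hc' : 1 ≤ P.v u := not_lt.1 hc
    have h0 : u ≠ 0 := by
      rintro rfl
      simp at hc'
    have := le_one_of_sub (hQ ⟨u⁻¹, (hR _).2 (by
      rw [map_inv₀]
      exact inv_le_one_of_one_le₀ hc')⟩)
    rw [map_inv₀, map_inv₀, inv_le_one₀ (zero_lt_iff.2 (by simpa using h0))] at this
    exact absurd hu (not_lt.2 this)
  · have h2 : φ ⟨u, (hR u).2 hu.le⟩ = 0 := PL.const_eq P.v P.triv (hφ _) (by simpa using hu)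
    have := hQ ⟨u, (hR u).2 hu.le⟩
    simpa [h2] using this

omit [Algebra K k] in
theorem exta_ord {P : Place K F} {Q : Place k Fb} (h : ∀ w, Q.v (j w) < 1 ↔ P.v w < 1) :
    0 < ord Q (j P.π) ∧ ∀ w, ord Q (j w) = ord Q (j P.π) * ord P w := by
  have he : P.v.IsEquiv (Q.v.comap j) :=
    Valuation.isEquiv_iff_val_lt_one.2 fun {x} => (h x).symm
  have hπ : j P.π ≠ 0 := (map_ne_zero j).2 P.π_ne
  refine ⟨(lt_one_iff hπ).1 ((h _).2 ((lt_one_iff P.π_ne).2 (by simp))), fun w => ?_⟩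
  rcases eq_or_ne w 0 with rfl | hw
  · simp
  have h1 : Q.v (j (w * P.π ^ log (P.v w))) = 1 := he.eq_one_iff_eq_one.1 (P.v_unit hw)
  have h2 := (eq_one_iff (ne_zero_of_v_one h1)).1 h1
  rw [map_mul, map_zpow₀, ord_mul Q ((map_ne_zero j).2 hw) (zpow_ne_zero _ hπ), ord_zpow] at h2
  rw [show ord P w = -log (P.v w) from rfl]
  linear_combination h2

end

theorem p_EXTA (hCEDEG : S_CEDEG) :
    S_EXTA := by
  intro K F k Fb _ _ _ _ _ _ _ _ _ _ _ j act h P
  choose f hf using fun P' : Place K F =>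
    exta_over h P' (hCEDEG K F k Fb j act h _ P'.π_trans).1
  have finj : Function.Injective f := fun A B e =>
    PL.uniq A B fun u => by rw [← hf, ← hf, e]
  obtain ⟨ht, h2⟩ := hCEDEG K F k Fb j act h _ P.π_trans
  have hn := (h2 (FF.fin _ P.π_trans)).2
  obtain ⟨Z, z1, z2⟩ := (PL.model P.π_trans).fund
  obtain ⟨Y, y1, y2⟩ := (PL.model ht).fund
  have hπ : j P.π ≠ 0 := (map_ne_zero j).2 P.π_ne
  have hsub : Z.map ⟨f, finj⟩ ⊆ Y := fun Q hQ => by
    obtain ⟨A, hA, rfl⟩ := Finset.mem_map.1 hQ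
    exact (y1 _).2 ((hf A _).2 ((z1 A).1 hA))
  have s0 := Finset.sum_sdiff (f := fun Q => ord Q (j P.π)) hsub
  rw [Finset.sum_map] at s0
  have s1 : ∀ Q ∈ Y \ Z.map ⟨f, finj⟩, 0 < ord Q (j P.π) := fun Q hQ =>
    (lt_one_iff hπ).1 ((y1 Q).1 (Finset.mem_sdiff.1 hQ).1)
  have s2 : ∀ A ∈ Z, 0 ≤ ord (f A) (j P.π) - ord A P.π := fun A hA => by
    have a1 := exta_ord (hf A)
    have a2 := (lt_one_iff P.π_ne).1 ((z1 A).1 hA)
    rw [a1.2 P.π]
    nlinarith [a1.1]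
  have s3 := Finset.sum_nonneg fun Q hQ => (s1 Q hQ).le
  have s4 := Finset.sum_nonneg s2
  have s5 : ∑ Q ∈ Y \ Z.map ⟨f, finj⟩, ord Q (j P.π) +
      ∑ A ∈ Z, (ord (f A) (j P.π) - ord A P.π) = 0 := by
    have y3 : ∑ Q ∈ Y, ord Q (j P.π) = finrank k⟮j P.π⟯ Fb := y2
    have z3 : ∑ A ∈ Z, ord A P.π = finrank K⟮P.π⟯ F := z2
    rw [Finset.sum_sub_distrib, ← add_sub_assoc, sub_eq_zero, z3, ← hn, ← y3]
    exact s0
  have hP : P ∈ Z := (z1 P).2 ((lt_one_iff P.π_ne).2 (by simp))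
  have e1 := (Finset.sum_eq_zero_iff_of_nonneg s2).1 (by omega) P hP
  rw [ord_π, sub_eq_zero] at e1
  refine ⟨f P, fun w => ?_, fun Q hQ => ?_⟩
  · rcases eq_or_ne w 0 with rfl | hw
    · simp
    rw [v_eq _ hw, v_eq _ ((map_ne_zero j).2 hw), (exta_ord (hf P)).2 w, e1, one_mul]
  · have hY : Q ∈ Y := (y1 Q).2 ((hQ _).2 ((z1 P).1 hP))
    by_cases hm : Q ∈ Z.map ⟨f, finj⟩
    · obtain ⟨A, -, rfl⟩ := Finset.mem_map.1 hm
      exact congrArg f (PL.uniq A P fun u => (hf A u).symm.trans (hQ u))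
    · have hm' := Finset.mem_sdiff.2 ⟨hY, hm⟩
      exact absurd ((Finset.sum_eq_zero_iff_of_nonneg fun Q hQ => (s1 Q hQ).le).1 (by omega) Q hm')
        (s1 Q hm').ne'

end Pool.Agent.P.MP_ab3ecb_nt.Inv
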