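import Pool.Agent.P.MP_ab3ecb_nt.Inv.J.Iface

/-! Step TRD of the twist project. -/

namespace Pool.Agent.P.MP_ab3ecb_nt.Inv

open WithZero Polynomial Module TensorProduct
open Pool.Agent.P.MP_6f117a_ag (Place FF Model Reg)
open scoped IntermediateField Classical Cardinal

theorem p_TRD :
    S_TRD := by
  intro K k _ _ _ g x Y hx hY alg
  have h1 := hx.injective.encard_range.trans <|
    (AlgebraicIndependent.matroid_indep_iff.2 hx.to_subtype_range).encard_le_eRk_of_subset
    (X := (AlgebraicIndependent.matroid K k).closure Y) (by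
      rintro _ ⟨i, rfl⟩
      rw [AlgebraicIndependent.matroid_closure_eq]
      exact IntermediateField.isAlgebraic_adjoin_iff.1 (alg i))
  rw [Matroid.eRk_closure_eq, ENat.card_eq_coe_fintype_card, Fintype.card_fin] at h1
  have h2 := (AlgebraicIndependent.matroid K k).eRk_le_encard Y
  have h3 : Y.card = g := le_antisymm hY (by
    have := h1.trans h2
    rwa [Set.encard_coe_eq_coe_finsetCard, Nat.cast_le] at this)
  refine ⟨h3, AlgebraicIndependent.matroid_indep_iff.1
    ((Matroid.indep_iff_eRk_eq_encard_of_finite Y.finite_toSet).2 (le_antisymm h2 ?_))⟩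
  rwa [Set.encard_coe_eq_coe_finsetCard, h3]

end Pool.Agent.P.MP_ab3ecb_nt.Inv
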