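import Pool.Agent.P.MP_ab3ecb_nt.Inv.J.Iface

/-! Step WA of the twist project. -/

namespace Pool.Agent.P.MP_ab3ecb_nt.Inv

open WithZero Polynomial Module TensorProduct
open Pool.Agent.P.MP_6f117a_ag (Place FF Model Reg)
open scoped IntermediateField Classical Cardinal

theorem wa_inf {k E : Type} [Field k] [IsAlgClosed k] [Field E] [Algebra k E] [FF k E] {t : E}
    (ht : Transcendental k t) : Infinite (Place k E) := by
  have h : ∀ c : k, ∃ P : Place k E, ev P t = c := fun c => by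
    obtain ⟨P, hP⟩ := PL.exists_pole (MP_6f117a_ag.trans_inv (MP_6f117a_ag.trans_sub ht c))
    rw [map_inv₀, one_lt_inv₀ (zero_lt_iff.2
      (v_ne P (MP_6f117a_ag.trans_ne (MP_6f117a_ag.trans_sub ht c))))] at hP
    exact ⟨P, ev_eq hP⟩
  exact .of_surjective (fun P => ev P t) h

theorem wa_exact {k E : Type} [Field k] [IsAlgClosed k] [Field E] [Algebra k E] {g : ℕ}
    (R : RR k E g) : ∃ c : ℤ, ∀ D : Dv k E, c ≤ deg D → ∀ S : Finset (Place k E),
      ∃ z ∈ LS D, ∀ P ∈ S, z ∉ LS (D - Finsupp.single P 1) := by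
  obtain ⟨c, hc⟩ := R.big
  refine ⟨c + 1, fun D hD S => by_contra fun h => ?_⟩
  push Not at h
  obtain ⟨P, hP⟩ := Subspace.exists_eq_top_of_iUnion_eq_univ
    (p := fun P : S => (LS (D - Finsupp.single P.1 1)).comap (LS D).subtype)
    (Set.eq_univ_of_forall fun z => by
      obtain ⟨P, h1, h2⟩ := h z z.2
      exact Set.mem_iUnion.2 ⟨⟨P, h1⟩, h2⟩)
  have := R.fd (D - Finsupp.single P.1 1)
  have h1 := Submodule.finrank_mono (Submodule.comap_subtype_eq_top.1 hP)
  have h2 := hc D (by omega)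
  have h3 := hc (D - Finsupp.single P.1 1) (by rw [map_sub, deg_single]; omega)
  rw [map_sub, deg_single] at h3
  omega

theorem p_WA (hRR : S_RR) :
    S_WA := by
  intro k E _ _ _ _ _ ht
  obtain ⟨g, R⟩ := hRR k E ht
  have := wa_inf ht.choose_spec
  refine ⟨this, fun S n => ?_⟩
  obtain ⟨Q, hQ⟩ := Infinite.exists_notMem_finset S
  obtain ⟨c, hc⟩ := wa_exact R
  let D : Dv k E := Finsupp.onFinset S (fun P => if P ∈ S then -n P else 0) fun P h =>
    by_contra fun e => h (if_neg e)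
  obtain ⟨z, h1, h2⟩ := hc (D + Finsupp.single Q (c - deg D))
    (by rw [map_add, deg_single]; omega) (insert Q S)
  have h0 : z ≠ 0 := fun e => h2 Q (Finset.mem_insert_self _ _) (e ▸ zero_mem _)
  refine ⟨z, h0, fun P hP => ?_⟩
  have e : (D + Finsupp.single Q (c - deg D)) P = -n P := by
    simp [D, hP, Finsupp.single_eq_of_ne (ne_of_mem_of_not_mem hP hQ)]
  have h3 := (le_exp_iff h0).1 (mem_LS.1 h1 P)
  refine by_contra fun h => h2 P (Finset.mem_insert_of_mem hP) (mem_LS.2 fun P' => ?_)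
  rcases eq_or_ne P' P with rfl | h4
  · rw [le_exp_iff h0, Finsupp.sub_apply, Finsupp.single_eq_same]
    omega
  · rw [Finsupp.sub_apply, Finsupp.single_eq_of_ne h4, sub_zero]
    exact mem_LS.1 h1 P'

end Pool.Agent.P.MP_ab3ecb_nt.Inv
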