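import Pool.Agent.P.MP_ab3ecb_nt.Inv.J.Iface

/-! Step AUT of the twist project. -/

namespace Pool.Agent.P.MP_ab3ecb_nt.Inv

open WithZero Polynomial Module TensorProduct
open Pool.Agent.P.MP_6f117a_ag (Place FF Model Reg)
open scoped IntermediateField Classical Cardinal

/-- Algebraically closed extensions of the same transcendence degree are isomorphic. -/
lemma aut_iso (L A B : Type) [Field L] [Field A] [Field B] [IsAlgClosed A] [IsAlgClosed B]
    [Algebra L A] [Algebra L B] (h : Algebra.trdeg L A = Algebra.trdeg L B) :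
    ∃ e : A ≃+* B, ∀ z, e (algebraMap L A z) = algebraMap L B z := by
  obtain ⟨s, hs⟩ := exists_isTranscendenceBasis L A
  obtain ⟨t, ht⟩ := exists_isTranscendenceBasis L B
  obtain ⟨i⟩ := Cardinal.eq.mp (hs.cardinalMk_eq_trdeg.trans (h.trans ht.cardinalMk_eq_trdeg.symm))
  have := IsAlgClosed.isAlgClosure_of_transcendence_basis _ hs
  have := IsAlgClosed.isAlgClosure_of_transcendence_basis _ ht
  let e := hs.1.aevalEquiv.symm.trans ((MvPolynomial.renameEquiv L i).trans ht.1.aevalEquiv)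
  refine ⟨IsAlgClosure.equivOfEquiv A B e.toRingEquiv, fun z => ?_⟩
  rw [IsScalarTower.algebraMap_apply L (Algebra.adjoin L (Set.range ((↑) : s → A))) A,
    IsAlgClosure.equivOfEquiv_algebraMap,
    IsScalarTower.algebraMap_apply L (Algebra.adjoin L (Set.range ((↑) : t → B))) B]
  exact congrArg _ (e.commutes z)

lemma aut_deg {K L k : Type} [Field K] [Field L] [Field k] [Algebra K L] [Algebra K k]
    (h1 : Algebra.trdeg K L < ℵ₀) (h2 : ℵ₀ ≤ Algebra.trdeg K k) (α : L →ₐ[K] k) :
    @Algebra.trdeg L k _ _ α.toRingHom.toAlgebra = Algebra.trdeg K k := by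
  let := α.toRingHom.toAlgebra
  have : IsScalarTower K L k := .of_algebraMap_eq fun z => (α.commutes z).symm
  have h := trdeg_add_eq K L (A := k)
  have h3 : ℵ₀ ≤ Algebra.trdeg L k := by
    by_contra h4
    exact absurd (h ▸ Cardinal.add_lt_aleph0 h1 (not_le.mp h4)) (not_lt.mpr h2)
  rw [← h, Cardinal.add_eq_right h3 (h1.le.trans h3)]

theorem p_AUT :
    S_AUT := by
  intro K L k _ _ _ _ _ _ h1 h2 α β
  obtain ⟨e, he⟩ := @aut_iso L k k _ _ _ _ _ α.toRingHom.toAlgebra β.toRingHom.toAlgebra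
    ((aut_deg h1 h2 α).trans (aut_deg h1 h2 β).symm)
  refine ⟨AlgEquiv.ofRingEquiv (f := e) fun z => ?_, he⟩
  exact (congrArg e (α.commutes z).symm).trans ((he _).trans (β.commutes z))

end Pool.Agent.P.MP_ab3ecb_nt.Inv
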