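import Pool.Agent.P.MP_ab3ecb_nt.Inv.J.Iface
import Pool.Agent.P.MP_6f117a_ag.Deriv

/-! Step DALG of the twist project. -/

namespace Pool.Agent.P.MP_ab3ecb_nt.Inv

open WithZero Polynomial Module TensorProduct
open Pool.Agent.P.MP_6f117a_ag (Place FF Model Reg)
open scoped IntermediateField Classical Cardinal

/-- A derivation killing `Y` kills the field generated by `Y`. -/
theorem dalg_kill {K k : Type} [Field K] [Field k] [Algebra K k] (Y : Set k)
    (δ : Derivation K k k) (h : ∀ y ∈ Y, δ y = 0) :
    ∀ x ∈ IntermediateField.adjoin K Y, δ x = 0 := by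
  intro x hx
  induction hx using IntermediateField.adjoin_induction with
  | mem y hy => exact h y hy
  | algebraMap a => exact δ.map_algebraMap a
  | add a b _ _ ha hb => rw [map_add, ha, hb, add_zero]
  | inv a _ ha => rw [δ.leibniz_inv, ha, smul_zero]
  | mul a b _ _ ha hb => rw [δ.leibniz, ha, hb, smul_zero, smul_zero, add_zero]

/-- A derivation killing an intermediate field is linear over it. -/
def dalg_over {K k : Type} [Field K] [Field k] [Algebra K k] (L : IntermediateField K k)
    (δ : Derivation K k k) (h : ∀ x ∈ L, δ x = 0) : Derivation L k k where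
  toFun := δ
  map_add' := map_add δ
  map_smul' a x := by
    have e : ∀ z : k, a • z = (a : k) * z := fun z => rfl
    rw [RingHom.id_apply, e, e, δ.leibniz, h a a.2, smul_zero, add_zero, smul_eq_mul]
  map_one_eq_zero' := δ.map_one_eq_zero
  leibniz' := δ.leibniz

theorem p_DALG :
    S_DALG := by
  intro K k _ _ _ _ Y c
  have hz : CharZero (IntermediateField.adjoin K Y) :=
    charZero_of_injective_algebraMap (algebraMap K (IntermediateField.adjoin K Y)).injective
  constructor
  · intro hx
    by_contra h1
    obtain ⟨s, hs, hb⟩ := exists_isTranscendenceBasis_superset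
      (R := IntermediateField.adjoin K Y) (s := {c})
      ((algebraicIndependent_singleton_iff (⟨c, rfl⟩ : ({c} : Set k))).2 h1)
    obtain ⟨b, e⟩ := Pool.Agent.P.MP_6f117a_ag.exists_basis_kaehler _ hb
    let d := KaehlerDifferential.linearMapEquivDerivation (IntermediateField.adjoin K Y) k
      (b.coord ⟨c, hs rfl⟩)
    have h0 : d c = 0 := hx (d.restrictScalars K) fun y hy =>
      d.map_algebraMap (⟨y, IntermediateField.subset_adjoin K Y hy⟩ : IntermediateField.adjoin K Y)
    rw [KaehlerDifferential.linearMapEquivDerivation_apply_apply,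
      show KaehlerDifferential.D (IntermediateField.adjoin K Y) k c = b ⟨c, hs rfl⟩ from
        (e ⟨c, hs rfl⟩).symm] at h0
    simp at h0
  · intro ha δ hδ
    have h1 := (dalg_over _ δ (dalg_kill Y δ hδ)).map_aeval
      (minpoly (IntermediateField.adjoin K Y) c) c
    rw [minpoly.aeval, map_zero] at h1
    have hs : (minpoly (IntermediateField.adjoin K Y) c).Separable :=
      (minpoly.irreducible ha.isIntegral).separable
    have h2 := hs.aeval_derivative_ne_zero (minpoly.aeval (IntermediateField.adjoin K Y) c)
    exact (smul_eq_zero.1 h1.symm).resolve_left h2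

end Pool.Agent.P.MP_ab3ecb_nt.Inv
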