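import Pool.Agent.P.MP_ab3ecb_nt.Inv.J.Iface

/-! Step DER of the twist project. -/

namespace Pool.Agent.P.MP_ab3ecb_nt.Inv

open WithZero Polynomial Module TensorProduct
open Pool.Agent.P.MP_6f117a_ag (Place FF Model Reg)
open scoped IntermediateField Classical Cardinal

/-- a ring homomorphism to the dual numbers over the identity gives a derivation -/
theorem der_of_hom {L : Type} [Field L] (Φ : L →+* TrivSqZeroExt L L) (h : ∀ x, (Φ x).fst = x) :
    ∃ D : Derivation ℤ L L, ∀ x, D x = (Φ x).snd :=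
  ⟨Derivation.mk' (AddMonoidHom.toIntLinearMap
    { toFun := fun x => (Φ x).snd, map_zero' := by simp, map_add' := fun x y => by simp })
    fun x y => by simp [h, mul_comm], fun _ => rfl⟩

/-- a dual number -/
def der_pr {L : Type} [Field L] (a b : L) : TrivSqZeroExt L L := (a, b)

theorem der_fst {L : Type} [Field L] (a b : L) : (der_pr a b).fst = a := rfl

theorem der_snd {L : Type} [Field L] (a b : L) : (der_pr a b).snd = b := rfl

theorem p_DER :
    S_DER := by
  intro K F k Fb _ _ _ _ _ _ _ j act h δ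
  let : Algebra K Fb := ((algebraMap k Fb).comp (algebraMap K k)).toAlgebra
  have : IsScalarTower K k Fb := .of_algebraMap_eq fun _ => rfl
  let jK : F →ₐ[K] Fb := { j with commutes' := h.comm }
  let μ : k ⊗[K] F →ₐ[k] Fb :=
    Algebra.TensorProduct.lift (Algebra.ofId k Fb) jK fun _ _ => Commute.all _ _
  have μt : ∀ c w, μ (c ⊗ₜ w) = algebraMap k Fb c * j w := fun _ _ => rfl
  have inj : Function.Injective μ := by
    let b := Basis.ofVectorSpace K F
    have h1 := h.lin _ b b.linearIndependent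
    have h2 : j ∘ b = μ.toLinearMap ∘ b.baseChange k := funext fun i => by simp [μt]
    rw [h2] at h1
    exact LinearMap.injective_of_linearIndependent (b.baseChange k).span_eq h1
  have rng : ∀ z ∈ Submodule.span k (Set.range j), ∃ t, μ t = z := fun z hz =>
    (Submodule.span_le (p := LinearMap.range μ.toLinearMap)).2
      (by rintro _ ⟨w, rfl⟩; exact ⟨1 ⊗ₜ w, by simp [μt]⟩) hz
  let : Algebra (k ⊗[K] F) Fb := μ.toRingHom.toAlgebra
  have : FaithfulSMul (k ⊗[K] F) Fb := (faithfulSMul_iff_algebraMap_injective _ _).2 inj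
  have : IsFractionRing (k ⊗[K] F) Fb := IsFractionRing.of_field _ _ fun z => by
    obtain ⟨b, hb, h0, hz⟩ := h.frac z
    obtain ⟨s, rfl⟩ := rng _ hb
    obtain ⟨t, e⟩ := rng _ hz
    exact ⟨t, s, by
      change z = μ t / μ s
      rw [e, mul_div_cancel_left₀ _ h0]⟩
  let α : k →ₐ[K] TrivSqZeroExt Fb Fb :=
    { toFun := fun c => der_pr (algebraMap k Fb c) (algebraMap k Fb (δ c))
      map_one' := by ext <;> simp [der_fst, der_snd]
      map_mul' := fun x y => by
        ext <;> simp [mul_comm, der_fst, der_snd]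
      map_zero' := by ext <;> simp [der_fst, der_snd]
      map_add' := fun x y => by ext <;> simp [der_fst, der_snd]
      commutes' := fun c => by
        rw [δ.map_algebraMap, map_zero]
        rfl }
  let Ψ : k ⊗[K] F →ₐ[K] TrivSqZeroExt Fb Fb := Algebra.TensorProduct.lift α
    ((TrivSqZeroExt.inlAlgHom K Fb Fb).comp jK) fun _ _ => Commute.all _ _
  have Ψt : ∀ c w, Ψ (c ⊗ₜ w) = α c * TrivSqZeroExt.inl (j w) := fun _ _ => rfl
  have Ψf : ∀ t, (Ψ t).fst = μ t := fun t => by
    induction t with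
    | zero => simp
    | tmul c w => simp [Ψt, μt, α, der_fst]
    | add x y a b => simp [a, b]
  have hu : ∀ y : nonZeroDivisors (k ⊗[K] F), IsUnit (Ψ.toRingHom y) := fun y => by
    refine TrivSqZeroExt.isUnit_iff_isUnit_fst.2 (IsUnit.mk0 _ ?_)
    exact (Ψf y).trans_ne (IsFractionRing.to_map_ne_zero_of_mem_nonZeroDivisors y.2)
  let Φ : Fb →+* TrivSqZeroExt Fb Fb := IsLocalization.lift hu
  have Φm : ∀ t, Φ (μ t) = Ψ t := IsLocalization.lift_eq hu
  have Φf : (TrivSqZeroExt.fstHom Fb Fb Fb).toRingHom.comp Φ = RingHom.id Fb :=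
    IsLocalization.ringHom_ext (nonZeroDivisors (k ⊗[K] F)) (RingHom.ext fun t =>
      (congrArg TrivSqZeroExt.fst (Φm t)).trans (Ψf t))
  obtain ⟨D, hD⟩ := der_of_hom Φ (RingHom.congr_fun Φf)
  refine ⟨D, fun c => ?_, fun w => ?_⟩
  · have := Φm (c ⊗ₜ 1)
    rw [μt, map_one, mul_one] at this
    simp [hD, this, Ψt, α, der_snd]
  · have := Φm (1 ⊗ₜ w)
    rw [μt, map_one, one_mul] at this
    simp [hD, this, Ψt]

end Pool.Agent.P.MP_ab3ecb_nt.Inv
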