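import Pool.Agent.P.MP_ab3ecb_nt.Inv.J.Iface

/-! Step DESC of the twist project. -/

namespace Pool.Agent.P.MP_ab3ecb_nt.Inv

open WithZero Polynomial Module TensorProduct
open Pool.Agent.P.MP_6f117a_ag (Place FF Model Reg)
open scoped IntermediateField Classical Cardinal

lemma desc_ss {ι k : Type} [Field k] {c d : ι →₀ k} {i : ι} (h : d.support ⊆ c.support)
    (hi : c i ≠ 0) (h0 : d i = 0) : d.support ⊂ c.support :=
  ⟨h, fun e => Finsupp.mem_support_iff.1 (e (Finsupp.mem_support_iff.2 hi)) h0⟩

theorem p_DESC :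
    S_DESC := by
  intro K F k Fb _ _ _ _ _ _ _ j act h H V hV hH
  let b := Basis.ofVectorSpace K F
  let L := Finsupp.linearCombination k (j ∘ b)
  have inj : Function.Injective L := h.lin _ b b.linearIndependent
  have sur : ∀ z ∈ Submodule.span k (Set.range j), ∃ c, L c = z := by
    refine fun z hz => (Submodule.span_le (p := LinearMap.range L)).2 ?_ hz
    rintro _ ⟨w, rfl⟩
    rw [← b.linearCombination_repr w, Finsupp.linearCombination_apply, Finsupp.sum, map_sum]
    refine Submodule.sum_mem _ fun i _ => ⟨Finsupp.single i (algebraMap K k (b.repr w i)), ?_⟩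
    simp only [L, Finsupp.linearCombination_single, Algebra.smul_def, map_mul, h.comm,
      Function.comp_apply]
  have hact : ∀ τ c, act τ (L c) = L (c.mapRange τ (map_zero τ)) := fun τ c => by
    induction c using Finsupp.induction_linear with
    | zero => simp
    | add c d h1 h2 => rw [map_add, map_add, h1, h2, Finsupp.mapRange_add (map_add τ), map_add]
    | single i a => simp only [L, Finsupp.mapRange_single, Finsupp.linearCombination_single,
        Algebra.smul_def, map_mul, h.semi, Function.comp_apply, h.fixF]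
  have two : ∀ c, (∀ τ ∈ H, act τ (L c) = L c) → L c ∈ Sp j (IntermediateField.fixedField H) :=
    fun c hc => by
      rw [Finsupp.linearCombination_apply]
      refine AddSubmonoid.sum_mem _ fun i _ => AddSubmonoid.subset_closure
        ⟨c i, (IntermediateField.mem_fixedField_iff _ _).2 fun τ hτ => ?_, b i, Algebra.smul_def _ _⟩
      simpa using DFunLike.congr_fun (inj ((hact τ c).symm.trans (hc τ hτ))) i
  have A : ∀ s c, c.support = s → c ≠ 0 → L c ∈ V → ∃ d, d ≠ 0 ∧ d.support ⊆ s ∧ L d ∈ V ∧
      ∀ τ ∈ H, act τ (L d) = L d := fun s => by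
    induction s using Finset.strongInduction with | H s ih =>
    rintro c rfl h0 hc
    obtain ⟨i, hi⟩ := Finsupp.ne_iff.1 h0
    have h1 : L ((c i)⁻¹ • c) ∈ V := by rw [map_smul]; exact V.smul_mem _ hc
    by_cases e : ∀ τ ∈ H, act τ (L ((c i)⁻¹ • c)) = L ((c i)⁻¹ • c)
    · exact ⟨_, smul_ne_zero (inv_ne_zero hi) h0, Finsupp.support_smul, h1, e⟩
    · push Not at e
      obtain ⟨τ, hτ, e⟩ := e
      have h2 := V.sub_mem (hH τ hτ _ h1) h1
      rw [hact, ← sub_ne_zero, ← map_sub] at e
      rw [hact, ← map_sub] at h2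
      have h3 := desc_ss (c := c) (d := ((c i)⁻¹ • c).mapRange τ (map_zero τ) - (c i)⁻¹ • c)
        (Finsupp.support_sub.trans (Finset.union_subset
          (Finsupp.support_mapRange.trans Finsupp.support_smul) Finsupp.support_smul)) hi
        (by simp [inv_mul_cancel₀ (show c i ≠ 0 from hi)])
      obtain ⟨d, d1, d2, d3⟩ := ih _ h3 _ rfl (fun e' => e (by rw [e', map_zero])) h2
      exact ⟨d, d1, d2.trans h3.1, d3⟩
  have B : ∀ s c, c.support = s → L c ∈ V → L c ∈ Submodule.span k
      {z | z ∈ V ∧ z ∈ Sp j (IntermediateField.fixedField H)} := fun s => by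
    induction s using Finset.strongInduction with | H s ih =>
    rintro c rfl hc
    rcases eq_or_ne c 0 with rfl | h0
    · simp
    obtain ⟨d, d1, d2, d3, d4⟩ := A _ c rfl h0 hc
    obtain ⟨i, hi⟩ := Finsupp.ne_iff.1 d1
    have h1 := ih _ (desc_ss (c := c) (d := c - (c i / d i) • d) (Finsupp.support_sub.trans
      (Finset.union_subset subset_rfl (Finsupp.support_smul.trans d2)))
      (Finsupp.mem_support_iff.1 (d2 (Finsupp.mem_support_iff.2 hi)))
      (by simp [div_mul_cancel₀ _ (show d i ≠ 0 from hi)])) _ rfl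
      (by rw [map_sub, map_smul]; exact V.sub_mem hc (V.smul_mem _ d3))
    rw [map_sub, map_smul] at h1
    simpa using Submodule.add_mem _ h1
      (Submodule.smul_mem _ (c i / d i) (Submodule.subset_span ⟨d3, two d d4⟩))
  refine ⟨fun z hz => ?_, fun z hz e => ?_⟩
  · obtain ⟨c, rfl⟩ := sur z (hV hz)
    exact B _ c rfl hz
  · obtain ⟨c, rfl⟩ := sur z hz
    exact two c e

end Pool.Agent.P.MP_ab3ecb_nt.Inv
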