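import Pool.Agent.P.MP_ab3ecb_nt.Inv.J.Iface

/-! Step FIXE of the twist project. -/

namespace Pool.Agent.P.MP_ab3ecb_nt.Inv

open WithZero Polynomial Module TensorProduct
open Pool.Agent.P.MP_6f117a_ag (Place FF Model Reg)
open scoped IntermediateField Classical Cardinal

section

variable {K F k Fb : Type} [Field K] [Field F] [Algebra K F] [Field k]
  [Algebra K k] [Field Fb] [Algebra k Fb] {j : F →+* Fb} {act : (k ≃ₐ[K] k) →* RingAut Fb}

lemma fixe_span (h : CE j act) (τ : k ≃ₐ[K] k) {z : Fb}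
    (hz : z ∈ Submodule.span k (Set.range j)) : act τ z ∈ Submodule.span k (Set.range j) := by
  induction hz using Submodule.span_induction with
  | mem x hx =>
    obtain ⟨w, rfl⟩ := hx
    rw [h.fixF]
    exact Submodule.subset_span ⟨w, rfl⟩
  | zero => simp
  | add x y _ _ hx hy => rw [map_add]; exact Submodule.add_mem _ hx hy
  | smul c x _ hx =>
    rw [Algebra.smul_def, map_mul, h.semi, ← Algebra.smul_def]
    exact Submodule.smul_mem _ _ hx

lemma fixe_sp (h : CE j act)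
    (hc : ∀ c : k, (∀ τ : k ≃ₐ[K] k, τ c = c) → c ∈ (algebraMap K k).range) {z : Fb}
    (hz : z ∈ Sp j (IntermediateField.fixedField (⊤ : Subgroup (k ≃ₐ[K] k)))) :
    ∃ w, j w = z := by
  induction hz using AddSubmonoid.closure_induction with
  | mem x hx =>
    obtain ⟨c, h1, w, rfl⟩ := hx
    obtain ⟨c0, rfl⟩ := hc c fun τ =>
      (IntermediateField.mem_fixedField_iff _ _).1 h1 τ (Subgroup.mem_top τ)
    exact ⟨algebraMap K F c0 * w, by rw [map_mul, h.comm]⟩
  | zero => exact ⟨0, map_zero _⟩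
  | add x y _ _ hx hy =>
    obtain ⟨a, rfl⟩ := hx
    obtain ⟨b, rfl⟩ := hy
    exact ⟨a + b, map_add _ _ _⟩

end

theorem p_FIXE (hDESC : S_DESC) :
    S_FIXE := by
  intro K F k Fb _ _ _ _ _ _ _ j act h hc z hz
  let V : Submodule k Fb := Submodule.span k (Set.range j) ⊓
    (Submodule.span k (Set.range j)).comap (LinearMap.mulRight k z)
  have hV : ∀ b, b ∈ V ↔ b ∈ Submodule.span k (Set.range j) ∧
      b * z ∈ Submodule.span k (Set.range j) := fun b => Iff.rfl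
  obtain ⟨d1, d2⟩ := hDESC K F k Fb j act h ⊤ V inf_le_left fun τ _ b hb => by
    obtain ⟨h1, h2⟩ := (hV b).1 hb
    refine (hV _).2 ⟨fixe_span h τ h1, ?_⟩
    have := fixe_span h τ h2
    rwa [map_mul, hz] at this
  obtain ⟨b, hb1, hb0, hb2⟩ := h.frac z
  have hex : ∃ b ∈ V, b ≠ 0 ∧
      b ∈ Sp j (IntermediateField.fixedField (⊤ : Subgroup (k ≃ₐ[K] k))) := by
    by_contra hn
    have h1 := d1 ((hV b).2 ⟨hb1, hb2⟩)
    rw [Submodule.span_eq_bot.2 fun x hx => by_contra fun h0 => hn ⟨x, hx.1, h0, hx.2⟩] at h1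
    exact hb0 ((Submodule.mem_bot k).1 h1)
  obtain ⟨b', hb', h0, hs⟩ := hex
  obtain ⟨w1, rfl⟩ := fixe_sp h hc hs
  obtain ⟨w2, hw2⟩ := fixe_sp h hc (d2 _ ((hV _).1 hb').2 fun τ _ => by rw [map_mul, h.fixF, hz])
  exact ⟨w2 / w1, by rw [map_div₀, hw2, mul_div_cancel_left₀ _ h0]⟩

end Pool.Agent.P.MP_ab3ecb_nt.Inv
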