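import Pool.Agent.P.MP_ab3ecb_nt.Inv.J.Iface

/-! Step NS of the twist project. -/

namespace Pool.Agent.P.MP_ab3ecb_nt.Inv

open WithZero Polynomial Module TensorProduct
open Pool.Agent.P.MP_6f117a_ag (Place FF Model Reg)
open scoped IntermediateField Classical Cardinal

lemma ns_alg {K F k : Type} [Field K] [Field F] [Algebra K F] [FF K F] [Field k] [Algebra K k]
    {t : F} (ht : Transcendental K t) (ψ : F →ₐ[K] k) (L : IntermediateField K k) (h : ψ t ∈ L)
    (w : F) : IsAlgebraic L (ψ w) := by
  have := FF.fin t ht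
  have h1 : K⟮t⟯ ≤ L.comap ψ := IntermediateField.adjoin_simple_le_iff.2 h
  exact (Algebra.IsAlgebraic.isAlgebraic (R := K⟮t⟯) w).ringHom_of_comp_eq
    (((ψ : F →+* k).comp (algebraMap K⟮t⟯ F)).codRestrict L fun x => h1 x.2) (ψ : F →+* k)
    (RingHom.injective _) rfl

theorem p_NS (hORB : S_ORB) :
    S_NS := by
  intro K F k Fb _ _ _ _ _ _ _ _ _ _ _ _ j act h ext pl cl t ht g R r
  induction r with
  | zero =>
    intro _ φ _
    rw [show gD pl φ = 0 by simp [gD], LS_zero, Subalgebra.finrank_toSubmodule,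
      Subalgebra.finrank_bot]
  | succ r ih =>
    intro hr φ hφ
    have h1 := ih (by omega) (fun i => φ i.castSucc) (hφ.comp _ (Fin.castSucc_injective r))
    have h2 := R.exc (gD pl fun i => φ i.castSucc) (by rw [deg_gD, h1]; omega)
    have e : gD pl φ = (gD pl fun i => φ i.castSucc) + Finsupp.single (pl (φ (Fin.last r))) 1 := by
      simp only [gD, Fin.sum_univ_castSucc]
    rw [e, ← h1]
    by_contra h3
    let L := IntermediateField.adjoin K ((fun i => φ i t) '' Set.range Fin.castSucc)
    have h4 : Transcendental L (φ (Fin.last r) t) := IntermediateField.transcendental_adjoin_iff.2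
      (hφ.transcendental_adjoin (by simp))
    have : IsScalarTower K (algebraicClosure L k) k := .of_algebraMap_eq fun _ => rfl
    refine hORB (algebraicClosure L k) k _ (h4.extendScalars _)
      ((h2.image fun Q => ev Q (j t)).subset ?_)
    rintro _ ⟨τ, rfl⟩
    refine ⟨pl ((τ.restrictScalars K : k →ₐ[K] k).comp (φ (Fin.last r))), ?_, cl.ev_pl _ t⟩
    have h5 : (fun i : Fin r => (τ.restrictScalars K : k →ₐ[K] k).comp (φ i.castSucc)) =
        fun i => φ i.castSucc := funext fun i => AlgHom.ext fun w =>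
      τ.commutes ⟨_, mem_algebraicClosure_iff.2 (ns_alg ht (φ i.castSucc) L
        (IntermediateField.subset_adjoin _ _ ⟨_, ⟨i, rfl⟩, rfl⟩) w)⟩
    have h6 := (h.sa (τ.restrictScalars K)).finrank_LS_dm
      ((gD pl fun i => φ i.castSucc) + Finsupp.single (pl (φ (Fin.last r))) 1)
    rw [map_add, cl.dm_gD, h5, SA.dm_single, cl.sa_pl] at h6
    exact fun e' => h3 (h6.symm.trans e')

end Pool.Agent.P.MP_ab3ecb_nt.Inv
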