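import Pool.Agent.P.MP_ab3ecb_nt.Inv.J.Iface

/-! Step ORB of the twist project. -/

namespace Pool.Agent.P.MP_ab3ecb_nt.Inv

open WithZero Polynomial Module TensorProduct
open Pool.Agent.P.MP_6f117a_ag (Place FF Model Reg)
open scoped IntermediateField Classical Cardinal

/-- Transcendental elements of an algebraically closed field are conjugate. -/
lemma orb_conj {L k : Type} [Field L] [Field k] [IsAlgClosed k] [Algebra L k] {c d : k}
    (hc : Transcendental L c) (hd : Transcendental L d) : ∃ τ : k ≃ₐ[L] k, τ c = d := by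
  obtain ⟨s, h1, hs⟩ := exists_isTranscendenceBasis_superset (R := L) (s := {c})
    (algebraicIndependent_unique_type_iff.mpr hc)
  obtain ⟨t, h2, ht⟩ := exists_isTranscendenceBasis_superset (R := L) (s := {d})
    (algebraicIndependent_unique_type_iff.mpr hd)
  obtain ⟨j⟩ := Cardinal.eq.mp (hs.cardinalMk_eq ht)
  let i := j.trans (Equiv.swap (j ⟨c, h1 rfl⟩) ⟨d, h2 rfl⟩)
  have := IsAlgClosed.isAlgClosure_of_transcendence_basis _ hs
  have := IsAlgClosed.isAlgClosure_of_transcendence_basis _ ht
  let e := hs.1.aevalEquiv.symm.trans ((MvPolynomial.renameEquiv L i).trans ht.1.aevalEquiv)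
  have h3 : ∀ p, IsAlgClosure.equivOfEquiv k k e.toRingEquiv
      (MvPolynomial.aeval ((↑) : s → k) p) =
      MvPolynomial.aeval ((↑) : t → k) (MvPolynomial.rename i p) := fun p => by
    rw [← hs.1.algebraMap_aevalEquiv, IsAlgClosure.equivOfEquiv_algebraMap,
      ← ht.1.algebraMap_aevalEquiv]
    simp [e]
  refine ⟨AlgEquiv.ofRingEquiv (f := IsAlgClosure.equivOfEquiv k k e.toRingEquiv) fun z => ?_, ?_⟩
  · simpa using h3 (MvPolynomial.C z)
  · simpa [i] using h3 (MvPolynomial.X ⟨c, h1 rfl⟩)

theorem p_ORB :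
    S_ORB := by
  intro L k _ _ _ _ c hc
  refine Set.infinite_of_injective_forall_mem (f := fun n : ℕ => c ^ (n + 1)) (fun m n h => ?_)
    fun n => orb_conj hc (hc.pow n.succ_pos)
  have h1 : (X ^ (m + 1) : L[X]) = X ^ (n + 1) :=
    transcendental_iff_injective.mp hc (by simpa using h)
  simpa using congrArg natDegree h1

end Pool.Agent.P.MP_ab3ecb_nt.Inv
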