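import Pool.Agent.P.MP_ab3ecb_nt.Inv.J.Iface

/-! Step PRIN of the twist project. -/

namespace Pool.Agent.P.MP_ab3ecb_nt.Inv

open WithZero Polynomial Module TensorProduct
open Pool.Agent.P.MP_6f117a_ag (Place FF Model Reg)
open scoped IntermediateField Classical Cardinal

theorem p_PRIN (hFIXE : S_FIXE) (hORB : S_ORB) :
    S_PRIN := by
  rintro K F k Fb _ _ _ _ _ _ _ _ _ _ _ _ j act h ext pl c - C ⟨z, hz, h1⟩
  rcases C.support.eq_empty_or_nonempty with h0 | ⟨P, -⟩
  · rw [Finsupp.support_eq_empty.1 h0]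
    exact Prin.zero
  obtain ⟨π, hπ⟩ := P.surj (exp (-C P))
  have h2 : π ≠ 0 := fun e => exp_ne_zero (by rw [← hπ, e, map_zero])
  have h3 : j π ≠ 0 := (_root_.map_ne_zero j).2 h2
  have h4 : (ext P).v (z / j π) = 1 := by
    rw [eq_one_iff (div_ne_zero hz h3), ord_div _ hz h3, c.ord_ext, (ord_eq_iff h2).2 hπ,
      ← dv_apply, h1, c.map_ext, sub_self]
  have h5 := ev_ne_zero h4
  have h6 := (_root_.map_ne_zero (algebraMap k Fb)).2 h5
  obtain ⟨y, hy⟩ : ∃ y, y = z / j π / algebraMap k Fb (ev (ext P) (z / j π)) := ⟨_, rfl⟩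
  have h7 : y ≠ 0 := hy ▸ div_ne_zero (div_ne_zero hz h3) h6
  have h8 : dv k y = (C - dv K π).mapDomain ext := by
    rw [hy, dv_div (div_ne_zero hz h3) h6, dv_div hz h3, dv_const, sub_zero, h1, c.dv_j,
      Finsupp.mapDomain_sub]
  have h9 : (ext P).v (algebraMap k Fb (ev (ext P) (z / j π))) = 1 := by
    rw [eq_one_iff h6, ← dv_apply, dv_const, Finsupp.zero_apply]
  have h10 : ev (ext P) y = 1 := by rw [hy, ev_div h4.le h9, ev_const, div_self h5]
  have h11 : (ext P).v y = 1 := by rw [hy, map_div₀, h4, h9, div_one]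
  obtain ⟨w, rfl⟩ := hFIXE K F k Fb j act h (fun a ha => by
    by_contra h12
    refine hORB K k a (fun h13 => h12 ?_) ((Set.finite_singleton a).subset ?_)
    · exact minpoly.mem_range_of_degree_eq_one K a
        (IsAlgClosed.degree_eq_one_of_irreducible K (minpoly.irreducible h13.isIntegral))
    · rintro _ ⟨τ, rfl⟩
      exact ha τ) y fun τ => by
    have h12 : (h.sa τ).s y ≠ 0 := (_root_.map_ne_zero _).2 h7
    obtain ⟨d, hd⟩ := const_of_dv (k := k) (z := (h.sa τ).s y / y) (by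
      rw [dv_div h12 h7, SA.dv_s, h8, c.dm_map, sub_self])
    have h13 := congrArg (ev (ext P)) hd
    have h14 := (h.sa τ).ev_pl (ext P) y
    have h15 := (h.sa τ).pl_v (ext P) y
    rw [c.sa_ext] at h14 h15
    rw [ev_const, ev_div (h15.trans h11).le h11, h14, h10, map_one, div_one] at h13
    rw [h13, map_one, eq_comm, div_eq_one_iff_eq h7] at hd
    exact hd
  have h12 : w ≠ 0 := fun e => h7 (by rw [e, map_zero])
  refine ⟨w * π, mul_ne_zero h12 h2, ?_⟩
  rw [c.dv_j] at h8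
  rw [dv_mul h12 h2, Finsupp.mapDomain_injective c.ext_inj h8, sub_add_cancel]

end Pool.Agent.P.MP_ab3ecb_nt.Inv
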