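import Pool.Agent.P.MP_ab3ecb_nt.Inv.J.Iface

/-! Step RIG of the twist project. -/

namespace Pool.Agent.P.MP_ab3ecb_nt.Inv

open WithZero Polynomial Module TensorProduct
open Pool.Agent.P.MP_6f117a_ag (Place FF Model Reg)
open scoped IntermediateField Classical Cardinal

theorem p_RIG (hDER : S_DER) (hLOCD : S_LOCD) :
    S_RIG := by
  intro K F k Fb _ _ _ _ _ _ _ _ _ _ _ _ j act h ext pl hc ht δ z A hz hA h1 hs Q hQ
  obtain ⟨δ', h2, h3⟩ := hDER K F k Fb j act h δ
  have hL := fun P => hLOCD K F k Fb j act h ext pl hc ht δ δ' h2 h3 P z hz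
  have h4 : δ' z / z ∈ LS A := mem_LS.2 fun P => by
    have h5 : 0 ≤ A P := hA P
    by_cases hP : P ∈ A.support
    · have h6 := Finsupp.mem_support_iff.1 hP
      exact (hL P).1.trans (exp_le_exp.2 (by omega))
    · rw [Finsupp.notMem_support_iff.1 hP, exp_zero]
      refine (hL P).2.1 (or_iff_not_imp_right.2 fun h6 => (hs P h6).resolve_left hP)
  obtain ⟨c, h5⟩ := const_of_finrank h1 hA h4
  by_contra h6
  exact ((hL Q).2.2 h6 hQ).not_ge (h5 ▸ Q.triv c)

end Pool.Agent.P.MP_ab3ecb_nt.Inv
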