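import Pool.Agent.P.MP_ab3ecb_nt.Inv.J.Iface

/-! Step CONJ of the twist project. -/

namespace Pool.Agent.P.MP_ab3ecb_nt.Inv

open WithZero Polynomial Module TensorProduct
open Pool.Agent.P.MP_6f117a_ag (Place FF Model Reg)
open scoped IntermediateField Classical Cardinal

section conj

variable {K F : Type} [Field K] [Field F] [Algebra K F] [FF K F] {t : F}

/-- The image of `F` is algebraic over any ring that contains the image of `t`. -/
lemma conj_alg (ht : Transcendental K t) {R B : Type} [CommRing R] [CommRing B] [Algebra K R]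
    [Algebra K B] [Algebra R B] [IsScalarTower K R B] [Nontrivial B] (g : F →ₐ[K] B) (u : R)
    (hu : algebraMap R B u = g t) (w : F) : IsAlgebraic R (g w) := by
  have := FF.fin t ht
  have h1 : IsAlgebraic (Algebra.adjoin K {t}) w :=
    IntermediateField.isAlgebraic_adjoin_iff.1 (Algebra.IsAlgebraic.isAlgebraic (R := K⟮t⟯) w)
  let f : Algebra.adjoin K {t} →+* R :=
    (aeval u : K[X] →ₐ[K] R).toRingHom.comp (algEquivOfTranscendental K t ht).symm.toRingEquiv
  have h2 : ∀ x, algebraMap R B (f x) = g x := fun x => by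
    obtain ⟨p, rfl⟩ := (algEquivOfTranscendental K t ht).surjective x
    have h3 : f (algEquivOfTranscendental K t ht p) = aeval u p :=
      congrArg (aeval u) ((algEquivOfTranscendental K t ht).symm_apply_apply p)
    rw [h3, ← aeval_algebraMap_apply, hu, aeval_algHom_apply, algEquivOfTranscendental_apply]
    congr 1
    exact aeval_algHom_apply (Algebra.adjoin K {t}).val ⟨t, _⟩ p
  refine h1.ringHom_of_comp_eq f (g : F →+* B) (fun x y e => ?_) (RingHom.ext h2)
  have h3 : g x = g y := by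
    rw [← h2, ← h2]
    exact congrArg _ e
  exact Subtype.ext ((g : F →+* B).injective h3)

variable {L k : Type} [Field L] [Algebra K L] [Field k] [Algebra K k] [Algebra L k]
  [IsScalarTower K L k]

lemma conj_tens (ht : Transcendental K t) [IsDomain (L ⊗[K] F)] :
    Algebra.IsAlgebraic (Algebra.adjoin L {(1 ⊗ₜ t : L ⊗[K] F)}) (L ⊗[K] F) := ⟨fun x => by
  induction x with
  | zero => exact isAlgebraic_zero
  | add x y hx hy => exact hx.add hy
  | tmul c w =>
    have h1 := conj_alg ht (R := Algebra.adjoin L {(1 ⊗ₜ t : L ⊗[K] F)})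
      (Algebra.TensorProduct.includeRight : F →ₐ[K] L ⊗[K] F)
      ⟨1 ⊗ₜ t, Algebra.self_mem_adjoin_singleton L _⟩ rfl w
    have h2 := isAlgebraic_algebraMap (A := L ⊗[K] F)
      (algebraMap L (Algebra.adjoin L {(1 ⊗ₜ t : L ⊗[K] F)}) c)
    have h3 := h2.mul h1
    rw [← IsScalarTower.algebraMap_apply] at h3
    simpa using h3⟩

/-- The map from the tensor product. -/
noncomputable def conj_map (L : Type) [Field L] [Algebra K L] [Algebra L k] [IsScalarTower K L k]
    (φ : F →ₐ[K] k) : L ⊗[K] F →ₐ[L] k :=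
  Algebra.TensorProduct.lift (Algebra.ofId L k) φ fun _ _ => Commute.all _ _

omit [FF K F] in
lemma conj_map_one (φ : F →ₐ[K] k) (w : F) : conj_map L φ (1 ⊗ₜ w) = φ w := by
  simp [conj_map]

lemma conj_inj (ht : Transcendental K t) [IsDomain (L ⊗[K] F)] (φ : F →ₐ[K] k)
    (hφ : Transcendental L (φ t)) : Function.Injective (conj_map L φ) := by
  rw [injective_iff_map_eq_zero]
  intro x hx
  by_contra h0
  obtain ⟨⟨r, hr⟩, r0, y, hy⟩ := ((conj_tens (L := L) ht).isAlgebraic x).exists_nonzero_dvd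
    (mem_nonZeroDivisors_of_ne_zero h0)
  obtain ⟨p, rfl⟩ := Algebra.adjoin_mem_exists_aeval _ _ hr
  have h1 : aeval (φ t) p = 0 := by
    rw [← conj_map_one (L := L), aeval_algHom_apply]
    have h2 : aeval (1 ⊗ₜ t : L ⊗[K] F) p = x * y := hy
    rw [h2, map_mul, hx, zero_mul]
  have h2 : p = 0 := by_contra fun e => hφ ⟨p, e, h1⟩
  exact r0 (Subtype.ext (by simp [h2]))

lemma conj_one (hAUT : S_AUT) (hDOMC : S_DOMC) [IsAlgClosed K] [IsAlgClosed k]
    (ht : Transcendental K t) (hL : ℵ₀ ≤ Algebra.trdeg L k) (φ ψ : F →ₐ[K] k)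
    (hφ : Transcendental L (φ t)) (hψ : Transcendental L (ψ t)) :
    ∃ τ : k ≃ₐ[L] k, ∀ w, τ (φ w) = ψ w := by
  have := hDOMC K F L
  have h1 := conj_tens (L := L) ht
  have h2 : Algebra.trdeg L (FractionRing (L ⊗[K] F)) < ℵ₀ := by
    have := IsLocalization.isAlgebraic (FractionRing (L ⊗[K] F)) (nonZeroDivisors (L ⊗[K] F))
    rw [← trdeg_add_eq L (L ⊗[K] F), trdeg_eq_zero (R := L ⊗[K] F), add_zero]
    exact (Algebra.IsAlgebraic.trdeg_le_cardinalMk L _ (alg := h1)).trans_lt (by simp)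
  obtain ⟨τ, h⟩ := hAUT L (FractionRing (L ⊗[K] F)) k h2 hL
    (IsFractionRing.liftAlgHom (conj_inj ht φ hφ)) (IsFractionRing.liftAlgHom (conj_inj ht ψ hψ))
  refine ⟨τ, fun w => ?_⟩
  have h3 := h (algebraMap (L ⊗[K] F) _ (1 ⊗ₜ w))
  simp only [IsFractionRing.liftAlgHom_apply, IsFractionRing.lift_algebraMap] at h3
  rw [← conj_map_one (L := L) φ, ← conj_map_one (L := L) ψ]
  exact h3

lemma conj_tr (E L k : Type) [CommRing E] [Nontrivial E] [Field L] [Field k] [Algebra E L]
    [Algebra L k] [Algebra E k] [IsScalarTower E L k] [FaithfulSMul E L]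
    [Algebra.IsAlgebraic E L] : Algebra.trdeg E k = Algebra.trdeg L k := by
  rw [← trdeg_add_eq E L, trdeg_eq_zero (A := L), zero_add]

omit [FF K F] in
open scoped IntermediateField.algebraAdjoinAdjoin in
lemma conj_trdeg (hk : ℵ₀ ≤ Algebra.trdeg K k) {S : Set k} (hS : S.Finite) :
    ℵ₀ ≤ Algebra.trdeg (IntermediateField.adjoin K S) k := by
  have : Algebra.FiniteType K (Algebra.adjoin K S) := .adjoin_of_finite hS
  have h1 := trdeg_lt_aleph0_of_finiteType (R := K) (S := Algebra.adjoin K S)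
  have := IsLocalization.isAlgebraic (IntermediateField.adjoin K S)
    (nonZeroDivisors (Algebra.adjoin K S))
  rw [← trdeg_add_eq K (Algebra.adjoin K S),
    conj_tr (Algebra.adjoin K S) (IntermediateField.adjoin K S) k] at hk
  by_contra h
  exact absurd (Cardinal.add_lt_aleph0 h1 (not_le.1 h)) (not_lt.2 hk)

lemma conj_two (hAUT : S_AUT) (hDOMC : S_DOMC) [IsAlgClosed K] [IsAlgClosed k]
    (ht : Transcendental K t) (hL : ℵ₀ ≤ Algebra.trdeg L k) (φ ψ : F →ₐ[K] k)
    (hφ : Transcendental L (φ t)) (hψ : Transcendental L (ψ t)) :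
    ∃ τ : k ≃ₐ[K] k, (∀ w, τ (φ w) = ψ w) ∧ ∀ x, IsAlgebraic L x → τ x = x := by
  let _ : Algebra K (algebraicClosure L k) :=
    ((algebraMap L (algebraicClosure L k)).comp (algebraMap K L)).toAlgebra
  have : IsScalarTower K (algebraicClosure L k) k :=
    IsScalarTower.of_algebraMap_eq fun x => IsScalarTower.algebraMap_apply K L k x
  have : FaithfulSMul L (algebraicClosure L k) :=
    (faithfulSMul_iff_algebraMap_injective _ _).2 (algebraMap L _).injective
  obtain ⟨τ, h⟩ := conj_one (L := algebraicClosure L k) hAUT hDOMC ht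
    (conj_tr L (algebraicClosure L k) k ▸ hL) φ ψ hφ.algebraicClosure hψ.algebraicClosure
  exact ⟨τ.restrictScalars K, h, fun x hx => τ.commutes ⟨x, mem_algebraicClosure_iff.2 hx⟩⟩

lemma conj_step (hAUT : S_AUT) (hDOMC : S_DOMC) [IsAlgClosed K] [IsAlgClosed k]
    (ht : Transcendental K t) (hk : ℵ₀ ≤ Algebra.trdeg K k) {r : ℕ}
    (φ ψ : Fin (r + 1) → F →ₐ[K] k) (hφ : Gen t φ) (hψ : Gen t ψ)
    (e : ∀ i : Fin r, φ i.succ = ψ i.succ) :
    ∃ τ : k ≃ₐ[K] k, ∀ i, (τ : k →ₐ[K] k).comp (φ i) = ψ i := by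
  let S : Set k := Set.range fun i : Fin r => ψ i.succ t
  let E := IntermediateField.adjoin K S
  have h0 : (0 : Fin (r + 1)) ∉ Set.range Fin.succ := by simp
  have h1 : ∀ χ : Fin (r + 1) → F →ₐ[K] k, Gen t χ → (∀ i : Fin r, χ i.succ = ψ i.succ) →
      Transcendental E (χ 0 t) := fun χ hχ e' => by
    have h2 := AlgebraicIndependent.transcendental_adjoin hχ h0
    rw [← Set.range_comp, show ((fun i => χ i t) ∘ Fin.succ) = fun i : Fin r => ψ i.succ t from
      funext fun i => by simp [e']] at h2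
    exact IntermediateField.transcendental_adjoin_iff.2 h2
  obtain ⟨τ, h, h'⟩ := conj_two (L := E) hAUT hDOMC ht
    (conj_trdeg hk (Set.finite_range _)) (φ 0) (ψ 0) (h1 φ hφ e) (h1 ψ hψ fun _ => rfl)
  refine ⟨τ, Fin.cases (AlgHom.ext h) fun i => AlgHom.ext fun w => ?_⟩
  rw [e]
  exact h' _ (conj_alg ht (R := E) (ψ i.succ)
    ⟨_, IntermediateField.subset_adjoin K S ⟨i, rfl⟩⟩ rfl w)

end conj

theorem p_CONJ (hAUT : S_AUT) (hDOMC : S_DOMC) :
    S_CONJ := by
  intro K F k _ _ _ _ _ _ _ _ t ht hk r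
  induction r with
  | zero => exact fun _ _ _ _ => ⟨AlgEquiv.refl, fun i => i.elim0⟩
  | succ r ih =>
    intro φ ψ hφ hψ
    obtain ⟨τ, h⟩ := ih (fun i => φ i.succ) (fun i => ψ i.succ)
      (AlgebraicIndependent.comp hφ Fin.succ (Fin.succ_injective r))
      (AlgebraicIndependent.comp hψ Fin.succ (Fin.succ_injective r))
    obtain ⟨σ, h'⟩ := conj_step hAUT hDOMC ht hk (fun i => (τ : k →ₐ[K] k).comp (φ i)) ψ
      (AlgebraicIndependent.map' (f := (τ : k →ₐ[K] k)) hφ τ.injective) hψ h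
    exact ⟨τ.trans σ, fun i => h' i⟩

end Pool.Agent.P.MP_ab3ecb_nt.Inv
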