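import Pool.Agent.P.MP_ab3ecb_nt.Inv.J.Iface

/-! Step DOMA of the twist project. -/

namespace Pool.Agent.P.MP_ab3ecb_nt.Inv

open WithZero Polynomial Module TensorProduct
open Pool.Agent.P.MP_6f117a_ag (Place FF Model Reg)
open scoped IntermediateField Classical Cardinal

lemma doma_deg {K F E : Type} [Field K] [Field F] [Algebra K F] [Field E] [Algebra K E]
    [Algebra F E] [IsScalarTower K F E]
    (h : ∀ z : F, IsAlgebraic K z → z ∈ (algebraMap K F).range) {α : E} (hα : IsIntegral K α) :
    (minpoly K α).natDegree ≤ (minpoly F α).natDegree := by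
  have hm := minpoly.monic (hα.tower_top (A := F))
  obtain ⟨q, h1, h2, h3⟩ := lifts_and_natDegree_eq_and_monic ((lifts_iff_coeff_lifts _).2 fun n =>
    h _ (isIntegral_coeff_of_dvd _ _ (minpoly.monic hα) hm
      (minpoly.dvd_map_of_isScalarTower K F α) n).isAlgebraic) hm
  rw [← h2]
  exact natDegree_le_natDegree (minpoly.min K α h3 (by
    rw [← aeval_map_algebraMap F, h1, minpoly.aeval]))

theorem p_DOMA :
    S_DOMA := by
  intro K F k _ _ _ _ _ _ _ h
  let fa : k →ₐ[K] AlgebraicClosure F := IsAlgClosed.lift
  have : Algebra.IsIntegral K fa.range :=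
    ((AlgEquiv.ofInjectiveField fa).isAlgebraic).isIntegral
  refine Subalgebra.LinearDisjoint.isDomain_of_injective fa.injective
    (IsScalarTower.toAlgHom K F (AlgebraicClosure F)).injective
    (.of_linearDisjoint_finite_left _ _ fun A _ _ => ?_)
  let L := (Subalgebra.isAlgebraic_iff A |>.2 inferInstance).toIntermediateField
  have : FiniteDimensional K L := inferInstanceAs (Module.Finite K A)
  let b := Field.powerBasisOfFiniteOfSeparable K L
  have h1 := doma_deg h (b.isIntegral_gen.map L.val)
  rw [minpoly.algHom_eq _ L.val.injective, b.natDegree_minpoly] at h1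
  refine IntermediateField.LinearDisjoint.of_basis_left (A := L) (L := F) b.basis ?_
  convert (linearIndependent_pow (K := F) (L.val b.gen)).comp _ (Fin.castLE_injective h1) using 1
  funext i
  simp [Fin.castLE]

end Pool.Agent.P.MP_ab3ecb_nt.Inv
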