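import Pool.Agent.P.MP_ab3ecb_nt.Inv.J.Iface

/-! Step GEN of the twist project. -/

namespace Pool.Agent.P.MP_ab3ecb_nt.Inv

open WithZero Polynomial Module TensorProduct
open Pool.Agent.P.MP_6f117a_ag (Place FF Model Reg)
open scoped IntermediateField Classical Cardinal

lemma gen_kil (hDALG : S_DALG) {K F k : Type} [Field K] [CharZero K] [Field F] [Algebra K F]
    [FF K F] [Field k] [Algebra K k] {t : F} (ht : Transcendental K t) (φ : F →ₐ[K] k)
    {δ : Derivation K k k} (a : δ (φ t) = 0) (w : F) : δ (φ w) = 0 := by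
  refine (hDALG K k {φ t} (φ w)).2 ?_ δ fun y hy => hy ▸ a
  have := FF.fin t ht
  have m : ∀ x : K⟮t⟯, ((φ : F →+* k).comp (algebraMap K⟮t⟯ F)) x ∈ K⟮φ t⟯ := fun x => by
    rw [← Set.image_singleton, ← IntermediateField.adjoin_map]
    exact ⟨x, x.2, rfl⟩
  exact (Algebra.IsAlgebraic.isAlgebraic (R := K⟮t⟯) w).ringHom_of_comp_eq
    (RingHom.codRestrict _ K⟮φ t⟯ m) (φ : F →+* k) (RingHom.injective _) rfl

theorem p_GEN (hRIG : S_RIG) (hDALG : S_DALG) (hTRD : S_TRD) :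
    S_GEN := by
  intro K F k Fb _ _ _ _ _ _ _ _ _ _ _ _ j act h ext pl cl t ht g φ hφ hl A m C hA hd hm ⟨z, hz, e⟩
  obtain ⟨Ψ, hΨ⟩ : ∃ Ψ : Finset (F →ₐ[K] k), ∀ ψ, ψ ∈ Ψ ↔ A (pl ψ) ≠ 0 :=
    ⟨A.support.preimage pl cl.pl_inj.injOn, fun ψ => by simp⟩
  have ho : ∀ ψ, ord (pl ψ) z = m * gD pl φ (pl ψ) - A (pl ψ) := fun ψ => by
    rw [← dv_apply, e, Finsupp.sub_apply, Finsupp.sub_apply, cl.map_pl, sub_zero,
      Finsupp.smul_apply, nsmul_eq_mul]
  have alg : ∀ i, IsAlgebraic (IntermediateField.adjoin K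
      ((Ψ.image fun ψ => ψ t : Finset k) : Set k)) (φ i t) := fun i => by
    refine (hDALG K k _ _).1 fun δ hδ => ?_
    have h1 : ∀ ψ, A (pl ψ) ≠ 0 → δ (ψ t) = 0 := fun ψ a =>
      hδ _ (Finset.mem_coe.2 (Finset.mem_image_of_mem _ ((hΨ ψ).2 a)))
    by_cases a : A (pl (φ i)) = 0
    swap
    · exact h1 _ a
    have h2 : (1 : ℤ) ≤ gD pl φ (pl (φ i)) := by
      simpa [gD] using Finset.single_le_sum (f := fun i => Finsupp.single (pl (φ i)) (1 : ℤ))
        (fun _ _ => Finsupp.single_nonneg.2 zero_le_one) (Finset.mem_univ i) (pl (φ i))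
    rw [← cl.ev_pl]
    refine hRIG K F k Fb j act h ext pl cl ⟨t, ht⟩ δ z _ hz (gD_nonneg pl φ) hl (fun Q hQ => ?_) _
      (by rw [ho, a, sub_zero]; exact mul_ne_zero (Nat.cast_ne_zero.2 hm) (by omega)) t
      (cl.pl_le _ t)
    rcases cl.all Q with ⟨P, rfl⟩ | ⟨ψ, rfl⟩
    · exact .inr (cl.kil_ext δ P)
    refine or_iff_not_imp_left.2 fun b w _ => ?_
    rw [ho, Finsupp.notMem_support_iff.1 b, mul_zero, zero_sub, neg_ne_zero] at hQ
    rw [cl.ev_pl]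
    exact gen_kil hDALG ht ψ (h1 ψ hQ) w
  have le : ∑ ψ ∈ Ψ, Finsupp.single (pl ψ) 1 ≤ A := fun Q => by
    rw [Finsupp.finsetSum_apply]
    by_cases a : ∃ ψ ∈ Ψ, pl ψ = Q
    · obtain ⟨ψ, a, rfl⟩ := a
      rw [Finset.sum_eq_single ψ (fun ψ' _ b => Finsupp.single_eq_of_ne (cl.pl_inj.ne b).symm)
        fun b => absurd a b, Finsupp.single_eq_same]
      exact lt_of_le_of_ne (hA _) ((hΨ ψ).1 a).symm
    · rw [Finset.sum_eq_zero fun ψ b => Finsupp.single_eq_of_ne fun c => a ⟨ψ, b, c.symm⟩]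
      exact hA Q
  have dg : deg (∑ ψ ∈ Ψ, Finsupp.single (pl ψ) 1 : Dv k Fb) = Ψ.card := by simp [map_sum]
  have c1 : Ψ.card ≤ g := by
    have := deg_mono le
    omega
  obtain ⟨c2, ind⟩ := hTRD K k g _ _ hφ (Finset.card_image_le.trans c1) alg
  have c3 : Ψ.card = g := le_antisymm c1 (c2 ▸ Finset.card_image_le)
  have inj := Finset.injOn_of_card_image_eq (c2.trans c3.symm)
  let ε := (Finset.equivFinOfCardEq c3).symm
  refine ⟨fun i => ε i, ind.comp (fun i => ⟨(ε i).1 t, Finset.mem_image_of_mem _ (ε i).2⟩)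
    fun a b c => ε.injective (Subtype.ext (inj (ε a).2 (ε b).2 (congrArg Subtype.val c))), ?_,
    fun i => ?_⟩
  · rw [gD, ε.sum_comp fun ψ => Finsupp.single (pl ψ) 1,
      Finset.sum_coe_sort Ψ fun ψ => Finsupp.single (pl ψ) 1, ← sub_eq_zero]
    exact eq_zero_of_deg (sub_nonneg.2 le) (by rw [map_sub, hd, dg, c3, sub_self])
  · have : (Set.range fun i => (ε i).1 t) = ((Ψ.image fun ψ => ψ t : Finset k) : Set k) := by
      rw [Finset.coe_image, Set.image_eq_range]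
      exact ε.surjective.range_comp fun ψ => ψ.1 t
    rw [this]
    exact alg i

end Pool.Agent.P.MP_ab3ecb_nt.Inv
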