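import Pool.Agent.P.MP_ab3ecb_nt.Inv.J.Iface

/-! Step HALF of the twist project. -/

namespace Pool.Agent.P.MP_ab3ecb_nt.Inv

open WithZero Polynomial Module TensorProduct
open Pool.Agent.P.MP_6f117a_ag (Place FF Model Reg)
open scoped IntermediateField Classical Cardinal

theorem p_HALF (hRIG : S_RIG) (hDALG : S_DALG) :
    S_HALF := by
  intro K F k Fb _ _ _ _ _ _ _ _ _ _ _ _ j act h ext pl cl ⟨t, ht⟩ g R D C hp
  obtain ⟨P0, -⟩ := PL.exists_pole ht
  obtain ⟨r, hr⟩ := R.minl D (ext P0)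
  obtain ⟨A, hA, hq⟩ := exists_eff (D := D + Finsupp.single (ext P0) r) (by omega)
  have hl : finrank k (LS A) = 1 := hq.finrank_eq.trans hr
  obtain ⟨z, hz, e⟩ := (hq.nsmul 2).add hp
  have ho : ∀ φ, ord (pl φ) z = 2 * A (pl φ) := fun φ => by
    rw [← dv_apply, e]
    simp only [Finsupp.add_apply, Finsupp.sub_apply, Finsupp.smul_apply, cl.map_pl,
      Finsupp.single_eq_of_ne (cl.ne P0 φ).symm, nsmul_eq_mul]
    push_cast
    ring
  have h0 : ∀ φ, A (pl φ) = 0 := fun φ => by_contra fun a => by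
    have alg : IsAlgebraic (IntermediateField.adjoin K (∅ : Set k)) (φ t) := by
      refine (hDALG K k _ _).1 fun δ _ => ?_
      rw [← cl.ev_pl]
      refine hRIG K F k Fb j act h ext pl cl ⟨t, ht⟩ δ z A hz hA hl (fun Q hQ => ?_) _
        (by rw [ho]; omega) t (cl.pl_le _ t)
      rcases cl.all Q with ⟨P, rfl⟩ | ⟨ψ, rfl⟩
      · exact .inr (cl.kil_ext δ P)
      · rw [ho] at hQ
        exact .inl (Finsupp.mem_support_iff.2 (by omega))
    rw [IntermediateField.adjoin_empty] at alg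
    have : Algebra.IsAlgebraic K (⊥ : IntermediateField K k) :=
      (IntermediateField.botEquiv K k).symm.isAlgebraic
    exact ht ((isAlgebraic_algHom_iff φ φ.injective).1 (alg.restrictScalars K))
  have e1 : A = (A.comapDomain ext cl.ext_inj.injOn).mapDomain ext := by
    ext Q
    rcases cl.all Q with ⟨P, rfl⟩ | ⟨φ, rfl⟩
    · rw [cl.map_ext, Finsupp.comapDomain_apply]
    · rw [cl.map_pl, h0]
  refine ⟨A.comapDomain ext cl.ext_inj.injOn - Finsupp.single P0 r, ?_⟩
  rw [Finsupp.mapDomain_sub, ← e1, Finsupp.mapDomain_single]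
  convert hq.neg using 1
  abel

end Pool.Agent.P.MP_ab3ecb_nt.Inv
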