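import Pool.Agent.P.MP_ab3ecb_nt.Inv.J.Iface

/-! Step JDIV of the twist project. -/

namespace Pool.Agent.P.MP_ab3ecb_nt.Inv

open WithZero Polynomial Module TensorProduct
open Pool.Agent.P.MP_6f117a_ag (Place FF Model Reg)
open scoped IntermediateField Classical Cardinal

theorem p_JDIV (hUNIV : S_UNIV) (hNS : S_NS) (hGEN : S_GEN) (hCONJ : S_CONJ) (hHALF : S_HALF) (hPRIN : S_PRIN) :
    S_JDIV := by
  rintro K F _ _ _ _ _ _ ⟨t, ht⟩ S hS
  obtain ⟨k, Fb, _, _, _, _, _, _, j, act, h, ext, pl, g, cl, R, htr, φ, hφ⟩ := hUNIV K F t ht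
  obtain ⟨P0, -⟩ := PL.exists_pole ht
  have h1 := hNS K F k Fb j act h ext pl cl t ht g R g le_rfl φ hφ
  have key : ∀ C : Dv K F, deg C = g → ∃ ψ : Fin g → F →ₐ[K] k, Gen t ψ ∧
      Prin (gD pl ψ - (2 • gD pl φ - C.mapDomain ext)) := fun C hC => by
    have e : deg (2 • gD pl φ - C.mapDomain ext) = g := by
      rw [map_sub, map_nsmul, deg_gD, deg_map, hC]
      ring
    obtain ⟨A, a0, a1⟩ := R.exists_eff e.ge
    obtain ⟨ψ, b1, rfl, -⟩ := hGEN K F k Fb j act h ext pl cl t ht g φ hφ h1 A 2 C a0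
      (a1.deg_eq.trans e) two_ne_zero (by convert a1.neg using 1; abel)
    exact ⟨ψ, b1, a1⟩
  obtain ⟨c, hc⟩ : ∃ c : Dv K F, c = ∑ P ∈ S, Finsupp.single P 1 - Finsupp.single P0 (S.card : ℤ) :=
    ⟨_, rfl⟩
  obtain ⟨ψ, a1, a2⟩ := key (Finsupp.single P0 g) (deg_single _ _)
  obtain ⟨ψ', b1, b2⟩ := key (Finsupp.single P0 (g : ℤ) - c) (by simp [hc, map_sum])
  obtain ⟨τ, hτ⟩ := hCONJ K F k t ht htr g ψ ψ' a1 b1
  have h2 := a2.dm (h.sa τ)
  rw [map_sub, map_sub, map_nsmul, cl.dm_map, cl.dm_gD τ ψ, funext hτ] at h2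
  have h3 : Prin (2 • ((h.sa τ).dm (gD pl φ) - gD pl φ) - c.mapDomain ext) := by
    convert b2.sub h2 using 1
    rw [Finsupp.mapDomain_sub, smul_sub]
    abel
  obtain ⟨C, h4⟩ := hHALF K F k Fb j act h ext pl cl ⟨t, ht⟩ g R _ c h3
  obtain ⟨z, z0, hz⟩ := hPRIN K F k Fb j act h ext pl cl ⟨t, ht⟩ (2 • C - c) (by
    convert h3.sub (h4.nsmul 2) using 1
    rw [Finsupp.mapDomain_sub, Finsupp.mapDomain_smul, smul_sub 2 _ (C.mapDomain ext)]
    abel)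
  refine ⟨z, z0, fun P => ?_⟩
  obtain ⟨m, hm⟩ := hS
  have h5 : ord P z = 2 * C P - ((if P ∈ S then 1 else 0) - if P0 = P then (S.card : ℤ) else 0) := by
    rw [← dv_apply, hz, hc]
    simp [Finsupp.finsetSum_apply, Finsupp.single_apply]
  rw [h5, hm, Int.odd_iff]
  split_ifs with e1 e2 e2 <;> simp only [e1, iff_true, iff_false] <;> omega

end Pool.Agent.P.MP_ab3ecb_nt.Inv
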