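import Pool.Agent.P.MP_ab3ecb_nt.Inv.J.Iface

/-! Step JFIN of the twist project. -/

namespace Pool.Agent.P.MP_ab3ecb_nt.Inv

open WithZero Polynomial Module TensorProduct
open Pool.Agent.P.MP_6f117a_ag (Place FF Model Reg)
open scoped IntermediateField Classical Cardinal

theorem jfin_orb {K k : Type} [Field K] [Field k] [Algebra K k] {g : ℕ} (Y : Fin g → k) (x : k)
    (hx : IsAlgebraic (IntermediateField.adjoin K (Set.range Y)) x) :
    {y | ∃ τ : k ≃ₐ[K] k, (∀ i, ∃ i', τ (Y i) = Y i') ∧ y = τ x}.Finite := by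
  obtain ⟨p, p0, hp⟩ := hx
  have key : ∀ f : Fin g → Fin g,
      {y | ∃ τ : k ≃ₐ[K] k, (∀ i, τ (Y i) = Y (f i)) ∧ y = τ x}.Finite := fun f => by
    rcases Set.eq_empty_or_nonempty {y | ∃ τ : k ≃ₐ[K] k, (∀ i, τ (Y i) = Y (f i)) ∧ y = τ x}
      with e | ⟨-, σ, hσ, -⟩
    · rw [e]; exact Set.finite_empty
    let r : (k ≃ₐ[K] k) → IntermediateField.adjoin K (Set.range Y) →ₐ[K] k := fun τ =>
      (τ : k →ₐ[K] k).comp (IntermediateField.val _)
    have q0 : p.map (r σ : IntermediateField.adjoin K (Set.range Y) →+* k) ≠ 0 :=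
      (Polynomial.map_ne_zero_iff (RingHom.injective _)).2 p0
    refine (Polynomial.finite_setOfPred_isRoot q0).subset ?_
    rintro _ ⟨τ, hτ, rfl⟩
    have e : r σ = r τ := IntermediateField.adjoin_algHom_ext K (by
      rintro _ ⟨i, rfl⟩
      exact (hσ i).trans (hτ i).symm)
    have h1 := Polynomial.hom_eval₂ p (algebraMap _ k) (τ : k →+* k) x
    rw [← aeval_def, hp, map_zero] at h1
    rw [Set.mem_ofPred_eq, IsRoot.def, eval_map, e]
    exact h1.symm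
  refine (Set.finite_iUnion key).subset ?_
  rintro _ ⟨τ, hτ, rfl⟩
  choose f hf using hτ
  exact Set.mem_iUnion.2 ⟨f, τ, hf, rfl⟩

section

variable {K F k Fb : Type} [Field K] [Field F] [Algebra K F] [Field k] [IsAlgClosed k]
  [Algebra K k] [Field Fb] [Algebra k Fb] [FF k Fb] {j : F →+* Fb}
  {act : (k ≃ₐ[K] k) →* RingAut Fb} {h : CE j act} {ext : Place K F → Place k Fb}
  {pl : (F →ₐ[K] k) → Place k Fb}

theorem jfin_emb (c : Cl h ext pl) {t : F} (ht : Transcendental K t) {S : Set k} (hS : S.Finite) :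
    {χ : F →ₐ[K] k | χ t ∈ S}.Finite := by
  refine (hS.biUnion (t := fun a => {χ : F →ₐ[K] k | χ t = a}) fun a _ => ?_).subset
    fun χ hχ => Set.mem_biUnion hχ rfl
  refine Set.Finite.of_finite_image ((finite_ord (k := k) (j t - algebraMap k Fb a)).subset ?_)
    c.pl_inj.injOn
  rintro _ ⟨χ, rfl, rfl⟩
  rw [Function.mem_support, c.pl_ord χ t ht]
  exact one_ne_zero

omit [IsAlgClosed k] [FF k Fb] in
theorem jfin_mem {g : ℕ} (c : Cl h ext pl) {φ ψ : Fin g → F →ₐ[K] k} (e : gD pl φ = gD pl ψ)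
    (i : Fin g) : ∃ i', φ i = ψ i' := by
  by_contra hc
  push Not at hc
  have h1 : gD pl ψ (pl (φ i)) = 0 := by
    rw [gD, Finsupp.finsetSum_apply]
    exact Finset.sum_eq_zero fun i' _ =>
      Finsupp.single_eq_of_ne fun e' => hc i' (c.pl_inj e')
  have h2 : (1 : ℤ) ≤ gD pl φ (pl (φ i)) := by
    rw [gD, Finsupp.finsetSum_apply]
    refine le_trans (by simp) (Finset.single_le_sum (f := fun i' =>
      Finsupp.single (pl (φ i')) (1 : ℤ) (pl (φ i))) (fun i' _ => ?_) (Finset.mem_univ i))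
    exact Finsupp.single_nonneg.2 zero_le_one _
  rw [e, h1] at h2
  omega

theorem jfin_fin {g : ℕ} (c : Cl h ext pl) {t : F} (ht : Transcendental K t)
    {φ ψ : Fin g → F →ₐ[K] k}
    (ha : ∀ i, IsAlgebraic (IntermediateField.adjoin K (Set.range fun i => ψ i t)) (φ i t)) :
    {A | ∃ τ, (h.sa τ).dm (gD pl ψ) = gD pl ψ ∧ A = (h.sa τ).dm (gD pl φ)}.Finite := by
  refine ((Set.Finite.pi' fun i => jfin_emb c ht (jfin_orb _ _ (ha i))).image (gD pl)).subset ?_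
  rintro _ ⟨τ, hτ, rfl⟩
  refine ⟨_, fun i => ⟨τ, fun i => ?_, rfl⟩, (c.dm_gD τ φ).symm⟩
  rw [c.dm_gD] at hτ
  obtain ⟨i', e⟩ := jfin_mem c hτ i
  exact ⟨i', congrArg (fun χ : F →ₐ[K] k => χ t) e⟩

end

theorem p_JFIN (hUNIV : S_UNIV) (hNS : S_NS) (hGEN : S_GEN) (hCONJ : S_CONJ) (hPRIN : S_PRIN) :
    S_JFIN := by
  intro K F _ _ _ _ _ _ ⟨t, ht⟩
  obtain ⟨k, Fb, _, _, _, _, _, _, j, act, h, ext, pl, g, c, R, hk, φ, hφ⟩ := hUNIV K F t ht
  obtain ⟨P0, -⟩ := PL.exists_pole ht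
  let M : Dv K F →+ Dv k Fb := Finsupp.mapDomain.addMonoidHom ext
  have hM : ∀ C : Dv K F, C.mapDomain ext = M C := fun _ => rfl
  have l1 := hNS K F k Fb j act h ext pl c t ht g R g le_rfl
  have d0 : deg (2 • gD pl φ - M (Finsupp.single P0 g)) = g := by
    rw [map_sub, map_nsmul, deg_gD, ← hM, deg_map, deg_single, nsmul_eq_mul]
    omega
  obtain ⟨A', a1, a2⟩ := R.exists_eff d0.ge
  obtain ⟨ψ, hψ, rfl, ha⟩ := hGEN K F k Fb j act h ext pl c t ht g φ hφ (l1 φ hφ) A' 2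
    (Finsupp.single P0 g) a1 (a2.deg_eq.trans d0) two_ne_zero (by
      convert a2.neg using 1
      rw [hM]; abel)
  have fin := jfin_fin c ht ha
  have key : ∀ z : F, Ev2 K z → ∃ A, (∃ τ, (h.sa τ).dm (gD pl ψ) = gD pl ψ ∧
      A = (h.sa τ).dm (gD pl φ)) ∧ Prin (A - (gD pl φ + M (hd K z))) := fun z hz => by
    have d1 : deg (gD pl φ + M (hd K z)) = g := by
      have := congrArg deg hz.two_hd
      rw [map_nsmul, deg_dv, nsmul_eq_mul] at this
      rw [map_add, deg_gD, ← hM, deg_map]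
      omega
    obtain ⟨A, b1, b2⟩ := R.exists_eff d1.ge
    obtain ⟨χ, hχ, rfl, -⟩ := hGEN K F k Fb j act h ext pl c t ht g φ hφ (l1 φ hφ) A 1
      (-hd K z) b1 (b2.deg_eq.trans d1) one_ne_zero (by
        convert b2.neg using 1
        rw [hM, map_neg]; abel)
    obtain ⟨τ, hτ⟩ := hCONJ K F k t ht hk g φ χ hφ hχ
    have e1 : (h.sa τ).dm (gD pl φ) = gD pl χ := by rw [c.dm_gD, funext hτ]
    refine ⟨_, ⟨τ, ?_, e1.symm⟩, b2⟩
    refine eff_unique (l1 ψ hψ) a1 (c.dm_gD τ ψ ▸ gD_nonneg pl _) ?_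
    have b3 := a2.dm (h.sa τ)
    rw [map_sub, map_sub, map_nsmul, e1, ← hM, c.dm_map, hM] at b3
    have b4 : Prin (2 • M (hd K z)) :=
      ⟨j z, (map_ne_zero j).2 hz.1, by rw [← map_nsmul, hz.two_hd, c.dv_j, hM]⟩
    convert ((b3.add (b2.nsmul 2)).add b4).sub a2 using 1
    rw [smul_sub, smul_add]
    abel
  have ch : ∀ A : Dv k Fb, ∃ r : F, Ev2 K r ∧ ∀ z, Ev2 K z →
      Prin (A - (gD pl φ + M (hd K z))) → Prin (A - (gD pl φ + M (hd K r))) := fun A => by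
    by_cases e : ∃ z, Ev2 K z ∧ Prin (A - (gD pl φ + M (hd K z)))
    · obtain ⟨z, h1, h2⟩ := e
      exact ⟨z, h1, fun _ _ _ => h2⟩
    · exact ⟨1 * 1, ev2_sq one_ne_zero, fun z h1 h2 => absurd ⟨z, h1, h2⟩ e⟩
  choose r r1 r2 using ch
  refine ⟨fin.toFinset.image r, fun x hx => ?_, fun z hz => ?_⟩
  · obtain ⟨A, -, rfl⟩ := Finset.mem_image.1 hx
    exact r1 A
  obtain ⟨A, b1, b2⟩ := key z hz
  refine ⟨r A, Finset.mem_image_of_mem r (fin.mem_toFinset.2 b1), ?_⟩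
  obtain ⟨w, w0, hw⟩ := hPRIN K F k Fb j act h ext pl c ⟨t, ht⟩ (hd K z - hd K (r A)) (by
    convert (r2 A z hz b2).sub b2 using 1
    rw [hM, map_sub]; abel)
  have r0 := (r1 A).1
  have n0 : r A * w ≠ 0 := mul_ne_zero r0 w0
  obtain ⟨s, hs⟩ : IsSquare (z * r A / (r A * w) ^ 2) := isSquare_of_dv (k := K) (by
    rw [dv_div (mul_ne_zero hz.1 r0) (pow_ne_zero 2 n0), dv_pow, dv_mul hz.1 r0, dv_mul r0 w0, hw,
      ← hz.two_hd, ← (r1 A).two_hd]
    simp only [two_nsmul]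
    abel)
  rw [div_eq_iff (pow_ne_zero 2 n0)] at hs
  exact ⟨s * (r A * w), by rw [hs]; ring⟩

end Pool.Agent.P.MP_ab3ecb_nt.Inv
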