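import Pool.Agent.P.MP_ab3ecb_nt.Inv.J.Iface

/-! Step LOCD of the twist project. -/

namespace Pool.Agent.P.MP_ab3ecb_nt.Inv

open WithZero Polynomial Module TensorProduct
open Pool.Agent.P.MP_6f117a_ag (Place FF Model Reg)
open scoped IntermediateField Classical Cardinal

section

variable {k E : Type} [Field k] [Field E] [Algebra k E] {Q : Place k E} {D : Derivation ℤ E E}
  {u : E}

lemma locd_ne (hu : Q.v u = exp (-1)) : u ≠ 0 := (map_ne_zero Q.v).1 (hu ▸ exp_ne_zero)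

lemma locd_mul {a b : E} {x : ℤᵐ⁰} (ha : Q.v a ≤ 1) (hb : Q.v b ≤ 1)
    (ha' : Q.v (D a) ≤ x) (hb' : Q.v (D b) ≤ x) : Q.v (D (a * b)) ≤ x := by
  rw [D.leibniz, smul_eq_mul, smul_eq_mul]
  refine Q.v.map_add_le ?_ ?_ <;> rw [map_mul]
  · exact (mul_le_of_le_one_left' ha).trans hb'
  · exact (mul_le_of_le_one_left' hb).trans ha'

lemma locd_poly (hc : ∀ c, Q.v (D (algebraMap k E c)) ≤ 1) (hu : Q.v u ≤ 1) (hd : Q.v (D u) ≤ 1)
    (p : k[X]) : Q.v (D (aeval u p)) ≤ 1 := by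
  induction p using Polynomial.induction_on with
  | C c => rw [aeval_C]; exact hc c
  | add p q hp hq => rw [map_add, map_add]; exact Q.v.map_add_le hp hq
  | monomial n c h =>
    rw [pow_succ, ← mul_assoc, map_mul, aeval_X]
    exact locd_mul (Q.v_aeval hu _) hu h hd

variable [IsAlgClosed k] [FF k E]

lemma locd_bdd (hc : ∀ c, Q.v (D (algebraMap k E c)) ≤ 1) (hu : Q.v u = exp (-1))
    (hd : Q.v (D u) ≤ 1) : ∃ N : ℕ, ∀ a, Q.v a ≤ 1 → Q.v (D a) ≤ exp (N : ℤ) := by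
  have h1 : Q.v u < 1 := by rw [hu, ← exp_zero, exp_lt_exp]; omega
  have M := PL.model (Q.trans (locd_ne hu) h1.ne)
  obtain ⟨b, hb⟩ := M.basis
  have one : ∀ N : ℕ, (1 : ℤᵐ⁰) ≤ exp (N : ℤ) := fun N => by rw [← exp_zero, exp_le_exp]; omega
  have : ∀ x : E, ∃ N : ℕ, Q.v x ≤ exp (N : ℤ) := fun x => by
    rcases eq_or_ne x 0 with rfl | h
    · exact ⟨0, by simp⟩
    · exact ⟨(-ord Q x).toNat, (le_exp_iff h).2 (by omega)⟩
  choose n hn using this
  refine ⟨Finset.univ.sup fun i => n (D (b i)), fun a ha => ?_⟩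
  have key : ∀ y, Reg k u y → Q.v (D y) ≤ exp ((Finset.univ.sup fun i => n (D (b i)) : ℕ) : ℤ) :=
    fun y hy => by
    obtain ⟨p, rfl⟩ := (hb y).1 hy
    rw [map_sum]
    exact Q.v.map_sum_le fun i _ => locd_mul (Q.v_aeval h1.le _)
      ((hb _).2 ⟨Pi.single i 1, by simp [Pi.single_apply, apply_ite]⟩ Q h1.le)
      ((locd_poly hc h1.le hd _).trans (one _)) ((hn _).trans (exp_le_exp.2 (Int.ofNat_le.2
        (Finset.le_sup (f := fun i => n (D (b i))) (Finset.mem_univ i)))))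
  obtain ⟨y, z, hy, hz, z1, e⟩ := M.frac Q h1.le a ha
  have e2 : D a * z = D y - a * D z := by
    rw [← e, Derivation.leibniz, smul_eq_mul, smul_eq_mul]; ring
  rw [← mul_one (Q.v _), ← z1, ← map_mul, e2]
  exact Q.v.map_sub_le (key y hy) (by
    rw [map_mul]; exact (mul_le_of_le_one_left' ha).trans (key z hz))

lemma locd_reg (hc : ∀ c, Q.v (D (algebraMap k E c)) ≤ 1) (hu : Q.v u = exp (-1))
    (hd : Q.v (D u) ≤ 1) : ∀ a, Q.v a ≤ 1 → Q.v (D a) ≤ 1 := by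
  obtain ⟨N, hN⟩ := locd_bdd hc hu hd
  have u0 := locd_ne hu
  induction N with
  | zero => exact hN
  | succ N ih =>
    refine ih fun a ha => ?_
    have one : (1 : ℤᵐ⁰) ≤ exp (N : ℤ) := by rw [← exp_zero, exp_le_exp]; omega
    obtain ⟨c, h1⟩ := PL.res Q ha
    have h3 : Q.v ((a - algebraMap k E c) / u) ≤ 1 := by
      have := Q.le_π h1
      rwa [map_div₀, Q.v_π, ← hu, ← map_div₀] at this
    have e : D a = D (algebraMap k E c) + (u * D ((a - algebraMap k E c) / u) +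
        (a - algebraMap k E c) / u * D u) := by
      have := D.leibniz u ((a - algebraMap k E c) / u)
      rw [mul_div_cancel₀ _ u0, map_sub, smul_eq_mul, smul_eq_mul] at this
      rw [← this, add_sub_cancel]
    rw [e]
    refine Q.v.map_add_le ((hc c).trans one) (Q.v.map_add_le ?_ ?_) <;> rw [map_mul]
    · rw [hu]
      refine (mul_le_mul_right (hN _ h3) _).trans ?_
      rw [← exp_add, exp_le_exp]; omega
    · exact (mul_le_one' h3 hd).trans one

lemma locd_log (hc : ∀ c, Q.v (D (algebraMap k E c)) ≤ 1) {e : k} (hu : Q.v u = exp (-1))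
    (hd : D u = algebraMap k E e) {z : E} (hz : z ≠ 0) :
    Q.v (D z / z - algebraMap k E (ord Q z * e) / u) ≤ 1 := by
  have u0 := locd_ne hu
  have h1 : Q.v (z * u ^ (-ord Q z)) = 1 := by
    rw [map_mul, map_zpow₀, hu, v_eq Q hz, ← exp_zsmul, ← exp_add, exp_eq_one]; simp
  have h3 : u ^ (-ord Q z) ≠ 0 := zpow_ne_zero _ u0
  have e1 : D z / z - algebraMap k E (ord Q z * e) / u =
      D (z * u ^ (-ord Q z)) / (z * u ^ (-ord Q z)) := by
    simp only [Derivation.leibniz, Derivation.leibniz_zpow, zsmul_eq_mul, zpow_sub_one₀ u0,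
      smul_eq_mul, map_mul, map_intCast, hd, Int.cast_neg]
    field_simp
    ring
  rw [e1, map_div₀, h1, div_one]
  exact locd_reg hc hu (hd ▸ Q.triv e) _ h1.le

end

theorem p_LOCD (hDALG : S_DALG) :
    S_LOCD := by
  intro K F k Fb _ _ _ _ _ _ _ _ _ _ _ _ j act h ext pl cl ⟨t, ht⟩ δ δ' h1 h2 Q z hz
  have : CharZero k := charZero_of_injective_algebraMap (algebraMap K k).injective
  obtain ⟨u, e, hu, hd, hk⟩ : ∃ u e, Q.v u = exp (-1) ∧ δ' u = algebraMap k Fb e ∧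
      (Kil j δ Q ↔ e = 0) := by
    rcases cl.all Q with ⟨P, rfl⟩ | ⟨φ, rfl⟩
    · exact ⟨j P.π, 0, by rw [cl.ext_v, P.v_π], by rw [h2, map_zero],
        iff_of_true (cl.kil_ext δ P) rfl⟩
    have h3 := cl.pl_ord φ t ht
    refine ⟨_, -δ (φ t), (ord_eq_iff (ne_zero_of_ord (by rw [h3]; omega))).1 h3,
      by rw [map_sub, h1, h2, zero_sub, map_neg],
      Iff.trans ⟨fun a => ?_, fun a w _ => ?_⟩ neg_eq_zero.symm⟩
    · simpa only [cl.ev_pl] using a t (cl.pl_le φ t)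
    rw [cl.ev_pl]
    refine (hDALG K k {φ t} (φ w)).2 ?_ δ fun y hy => hy ▸ a
    have := FF.fin t ht
    have m : ∀ x : K⟮t⟯, ((φ : F →+* k).comp (algebraMap K⟮t⟯ F)) x ∈ K⟮φ t⟯ := fun x => by
      rw [← Set.image_singleton, ← IntermediateField.adjoin_map]
      exact ⟨x, x.2, rfl⟩
    exact (Algebra.IsAlgebraic.isAlgebraic (R := K⟮t⟯) w).ringHom_of_comp_eq
      (RingHom.codRestrict _ K⟮φ t⟯ m) (φ : F →+* k) (RingHom.injective _) rfl
  have h4 := locd_log (fun c => h1 c ▸ Q.triv _) hu hd hz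
  have h5 : (1 : ℤᵐ⁰) < exp 1 := by rw [← exp_zero, exp_lt_exp]; omega
  have h6 : ∀ c, Q.v (algebraMap k Fb c / u) = Q.v (algebraMap k Fb c) * exp 1 := fun c => by
    rw [map_div₀, hu, exp_neg, div_inv_eq_mul]
  rw [← sub_add_cancel (δ' z / z) (algebraMap k Fb (ord Q z * e) / u)]
  refine ⟨Q.v.map_add_le (h4.trans h5.le) ?_, fun a => Q.v.map_add_le h4 ?_, fun a b => ?_⟩
  · rw [h6]; exact mul_le_of_le_one_left' (Q.triv _)
  · rcases a with a | a
    · simp [hk.1 a]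
    · simp [a]
  · have h7 := h6 (ord Q z * e)
    rw [Q.v_const (mul_ne_zero (Int.cast_ne_zero.2 b) (mt hk.2 a)), one_mul] at h7
    rwa [Q.v.map_add_eq_of_lt_right (h7 ▸ h4.trans_lt h5), h7]

end Pool.Agent.P.MP_ab3ecb_nt.Inv
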