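import Pool.Agent.P.MP_ab3ecb_nt.Inv.J.Iface

/-! Step UNIV of the twist project. -/

namespace Pool.Agent.P.MP_ab3ecb_nt.Inv

open WithZero Polynomial Module TensorProduct
open Pool.Agent.P.MP_6f117a_ag (Place FF Model Reg)
open scoped IntermediateField Classical Cardinal

theorem univ_emb {K F k : Type} [Field K] [Field F] [Algebra K F] [FF K F] [Field k]
    [IsAlgClosed k] [Algebra K k] {t : F} (ht : Transcendental K t) {x : k}
    (hx : Transcendental K x) : ∃ φ : F →ₐ[K] k, φ t = x := by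
  have := FF.fin t ht
  let α : K⟮t⟯ →ₐ[K] k := (IntermediateField.val K⟮x⟯).comp
    ((RatFunc.algEquivOfTranscendental t ht).symm.trans
      (RatFunc.algEquivOfTranscendental x hx)).toAlgHom
  have hα : α (IntermediateField.AdjoinSimple.gen K t) = x := by
    simp [α]
  let _ : Algebra K⟮t⟯ k := α.toAlgebra
  have : IsScalarTower K K⟮t⟯ k := .of_algebraMap_eq fun c => (α.commutes c).symm
  let β : F →ₐ[K⟮t⟯] k := IsAlgClosed.lift
  exact ⟨β.restrictScalars K, (β.commutes (IntermediateField.AdjoinSimple.gen K t)).trans hα⟩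

theorem univ_big (K : Type) [Field K] : ∃ (k : Type) (_ : Field k) (_ : IsAlgClosed k)
    (_ : Algebra K k) (x : ℕ → k), AlgebraicIndependent K x := by
  let k := AlgebraicClosure (FractionRing (MvPolynomial ℕ K))
  refine ⟨k, inferInstance, inferInstance, inferInstance, _,
    (MvPolynomial.algebraicIndependent_X ℕ K).map' (f := IsScalarTower.toAlgHom K _ k) ?_⟩
  exact (algebraMap (FractionRing (MvPolynomial ℕ K)) k).injective.comp
    (IsFractionRing.injective (MvPolynomial ℕ K) _)

theorem p_UNIV (hDOMC : S_DOMC) (hBASE : S_BASE) (hCEDEG : S_CEDEG) (hCL : S_CL) (hRR : S_RR) :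
    S_UNIV := by
  intro K F _ _ _ _ _ _ t ht
  obtain ⟨k, _, _, _, x, hx⟩ := univ_big K
  obtain ⟨Fb, _, _, j, act, h, -⟩ := hBASE K F k (hDOMC K F k)
  obtain ⟨h1, h2⟩ := hCEDEG K F k Fb j act h t ht
  have := (h2 (FF.fin t ht)).1
  obtain ⟨g, R⟩ := hRR k Fb ⟨_, h1⟩
  obtain ⟨ext, pl, c⟩ := hCL K F k Fb j act h ⟨t, ht⟩
  choose φ hφ using fun i : Fin g => univ_emb ht (hx.transcendental i)
  refine ⟨k, Fb, inferInstance, inferInstance, inferInstance, inferInstance, inferInstance,
    inferInstance, j, act, h, ext, pl, g, c, R, by simpa using hx.cardinalMk_le_trdeg, φ, ?_⟩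
  rw [Gen, funext hφ]
  exact hx.comp _ Fin.val_injective

end Pool.Agent.P.MP_ab3ecb_nt.Inv
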